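import Mathlib

/-!
Discrete events of the noisy voter dynamics, lineages and the telescoping identity.
-/

namespace Pool.Agent.helper69.NV

open Finset

variable {V : Type} [Fintype V] [DecidableEq V] {q : ℕ}

/-- events: nothing, noise at a vertex with a colour, a vertex copies another one -/
abbrev Ev (V : Type) (q : ℕ) := Option ((V × Fin q) ⊕ (V × V))

/-- action of an event on a configuration -/
def act : Ev V q → (V → Fin q) → (V → Fin q)
  | none, x => x
  | some (Sum.inl (y, b)), x => Function.update x y b
  | some (Sum.inr (y, z)), x => Function.update x y (x z)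

/-- total probability of an event at `y` -/
noncomputable def hh (q : ℕ) (α : ℝ) (c : V → V → ℝ) (y : V) : ℝ := q * α + ∑ z, c y z

/-- probability of the null event -/
noncomputable def p0 (q : ℕ) (α : ℝ) (c : V → V → ℝ) : ℝ := 1 - ∑ y, hh q α c y

/-- probability of an event -/
noncomputable def prob (α : ℝ) (c : V → V → ℝ) : Ev V q → ℝ
  | none => p0 q α c
  | some (Sum.inl _) => α
  | some (Sum.inr (y, z)) => c y z

/-- iterated averages -/
noncomputable def It (α : ℝ) (c : V → V → ℝ) : ℕ → ((V → Fin q) → ℝ) → (V → Fin q) → ℝ
  | 0, F, x => F x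
  | k + 1, F, x => ∑ e : Ev V q, prob α c e * It α c k (fun x' => F (act e x')) x

/-- density factor -/
noncomputable def rho (α : ℝ) (c : V → V → ℝ) (a : Fin q) : Ev V q → Finset V → V → ℝ
  | none, _, _ => 1
  | some (Sum.inl (y, b)), B, u => if b = a ∧ y ∈ B ∧ y ≠ u then 1 + c y u / α else 1
  | some (Sum.inr (y, z)), B, u => if z = u ∧ y ∈ B ∧ y ≠ u then 0 else 1

/-- new alive set -/
def nB : Ev V q → Finset V → Finset V
  | none, B => B
  | some (Sum.inl (y, _)), B => B.erase y
  | some (Sum.inr (y, z)), B => if y ∈ B then insert z (B.erase y) else B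

/-- new position of the lineage -/
def nU : Ev V q → V → Option V
  | none, u => some u
  | some (Sum.inl (y, _)), u => if u = y then none else some u
  | some (Sum.inr (y, z)), u => if u = y then some z else some u

/-- weighted lineage operator -/
noncomputable def Q (α : ℝ) (c : V → V → ℝ) (a : Fin q) :
    ℕ → Finset V → V → V → ((V → Fin q) → ℝ) → (V → Fin q) → ℝ
  | 0, _, u, v, F, x => if u = v then F x else 0
  | k + 1, B, u, v, F, x => ∑ e : Ev V q, prob α c e * (rho α c a e B u *
      (match nU e u with
        | none => 0
        | some u' => Q α c a k (nB e B) u' v (fun x' => F (act e x')) x))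

/-- discrete gradient -/
noncomputable def del (a : Fin q) (u : V) (G : (V → Fin q) → ℝ) (x : V → Fin q) : ℝ :=
  G (Function.update x u a) - G x

/-- `G` depends only on the coordinates in `B` -/
def Dep (B : Finset V) (G : (V → Fin q) → ℝ) : Prop :=
  ∀ x y : V → Fin q, (∀ w ∈ B, x w = y w) → G x = G y

omit [Fintype V] in
theorem sum_ev [Fintype V] (F : Ev V q → ℝ) :
    ∑ e, F e = F none + (∑ y, ∑ b, F (some (Sum.inl (y, b))) +
      ∑ y, ∑ z, F (some (Sum.inr (y, z)))) := by
  rw [Fintype.sum_option, Fintype.sum_sum_type, Fintype.sum_prod_type, Fintype.sum_prod_type]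

theorem It_add (α : ℝ) (c : V → V → ℝ) (k : ℕ) : ∀ (F G : (V → Fin q) → ℝ) (x : V → Fin q),
    It α c k (fun x' => F x' + G x') x = It α c k F x + It α c k G x := by
  induction k with
  | zero => intro F G x; simp [It]
  | succ k ih =>
    intro F G x
    simp only [It]
    rw [← Finset.sum_add_distrib]
    refine Finset.sum_congr rfl fun e _ => ?_
    rw [ih (fun x' => F (act e x')) (fun x' => G (act e x'))]
    ring

theorem It_smul (α : ℝ) (c : V → V → ℝ) (k : ℕ) : ∀ (r : ℝ) (F : (V → Fin q) → ℝ)
    (x : V → Fin q), It α c k (fun x' => r * F x') x = r * It α c k F x := by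
  induction k with
  | zero => intro r F x; simp [It]
  | succ k ih =>
    intro r F x
    simp only [It]
    rw [Finset.mul_sum]
    refine Finset.sum_congr rfl fun e _ => ?_
    rw [ih r (fun x' => F (act e x'))]
    ring

theorem Q_add (α : ℝ) (c : V → V → ℝ) (a : Fin q) (k : ℕ) : ∀ (B : Finset V) (u v : V)
    (F G : (V → Fin q) → ℝ) (x : V → Fin q),
    Q α c a k B u v (fun x' => F x' + G x') x = Q α c a k B u v F x + Q α c a k B u v G x := by
  induction k with
  | zero => intro B u v F G x; simp only [Q]; split_ifs <;> simp
  | succ k ih =>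
    intro B u v F G x
    simp only [Q]
    rw [← Finset.sum_add_distrib]
    refine Finset.sum_congr rfl fun e _ => ?_
    rcases nU e u with _ | u'
    · simp
    · simp only
      rw [ih (nB e B) u' v (fun x' => F (act e x')) (fun x' => G (act e x'))]
      ring

theorem Q_zero (α : ℝ) (c : V → V → ℝ) (a : Fin q) (k : ℕ) : ∀ (B : Finset V) (u v : V)
    (x : V → Fin q), Q α c a k B u v (fun _ => 0) x = 0 := by
  induction k with
  | zero => intro B u v x; simp only [Q]; split_ifs <;> rfl
  | succ k ih =>
    intro B u v x
    simp only [Q]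
    refine Finset.sum_eq_zero fun e _ => ?_
    rcases nU e u with _ | u'
    · simp
    · simp [ih]

omit [Fintype V] in
theorem dep_nB {B : Finset V} {G : (V → Fin q) → ℝ} (h : Dep B G) (e : Ev V q) :
    Dep (nB e B) (fun x => G (act e x)) := by
  intro x y hxy
  apply h
  intro w hw
  match e with
  | none => exact hxy w (by simpa [nB] using hw)
  | some (Sum.inl (y', b)) =>
    simp only [act]
    by_cases h1 : w = y'
    · subst h1; simp
    · rw [Function.update_of_ne h1, Function.update_of_ne h1]
      exact hxy w (by simp [nB, h1, hw])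
  | some (Sum.inr (y', z)) =>
    simp only [act]
    by_cases h1 : w = y'
    · subst h1
      simp only [Function.update_self]
      exact hxy z (by simp [nB, hw])
    · rw [Function.update_of_ne h1, Function.update_of_ne h1]
      apply hxy w
      simp only [nB]
      split_ifs
      · simp [h1, hw]
      · exact hw

omit [Fintype V] in
theorem del_zero_of_dep {B : Finset V} {G : (V → Fin q) → ℝ} (h : Dep B G) (a : Fin q) {u : V}
    (hu : u ∉ B) : del a u G = fun _ => 0 := by
  funext x
  simp only [del]
  rw [sub_eq_zero]
  apply h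
  intro w hw
  have : w ≠ u := by rintro rfl; exact hu hw
  rw [Function.update_of_ne this]

end Pool.Agent.helper69.NV
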