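import Pool.Agent.helper69.NV.Tele

/-!
Cauchy-Schwarz for the weighted lineage operators.
-/

namespace Pool.Agent.helper69.NV

open Finset

variable {V : Type} [Fintype V] [DecidableEq V] {q : ℕ}

theorem cs_sum {ι : Type*} (s : Finset ι) (r f g : ι → ℝ) (hf : ∀ i ∈ s, 0 ≤ f i)
    (hg : ∀ i ∈ s, 0 ≤ g i) (h : ∀ i ∈ s, (r i) ^ 2 ≤ f i * g i) :
    (∑ i ∈ s, r i) ^ 2 ≤ (∑ i ∈ s, f i) * (∑ i ∈ s, g i) := by
  have h1 : |∑ i ∈ s, r i| ≤ ∑ i ∈ s, √(f i) * √(g i) := by
    refine (Finset.abs_sum_le_sum_abs _ _).trans (Finset.sum_le_sum fun i hi => ?_)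
    rw [← Real.sqrt_mul (hf i hi)]
    exact Real.abs_le_sqrt (h i hi)
  have h2 : (∑ i ∈ s, √(f i) * √(g i)) ^ 2 ≤ (∑ i ∈ s, √(f i) ^ 2) * (∑ i ∈ s, √(g i) ^ 2) :=
    Finset.sum_mul_sq_le_sq_mul_sq s _ _
  have h3 : ∑ i ∈ s, √(f i) ^ 2 = ∑ i ∈ s, f i :=
    Finset.sum_congr rfl fun i hi => Real.sq_sqrt (hf i hi)
  have h4 : ∑ i ∈ s, √(g i) ^ 2 = ∑ i ∈ s, g i :=
    Finset.sum_congr rfl fun i hi => Real.sq_sqrt (hg i hi)
  rw [h3, h4] at h2
  calc (∑ i ∈ s, r i) ^ 2 = |∑ i ∈ s, r i| ^ 2 := (sq_abs _).symm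
    _ ≤ (∑ i ∈ s, √(f i) * √(g i)) ^ 2 := by
        apply pow_le_pow_left₀ (abs_nonneg _) h1
    _ ≤ _ := h2

/-- squared weights of lineages -/
noncomputable def bb (α : ℝ) (c : V → V → ℝ) (a : Fin q) : ℕ → Finset V → V → V → ℝ
  | 0, _, u, v => if u = v then 1 else 0
  | k + 1, B, u, v => ∑ e : Ev V q, prob α c e * ((rho α c a e B u) ^ 2 *
      (match nU e u with
        | none => 0
        | some u' => bb α c a k (nB e B) u' v))

theorem prob_nonneg {α : ℝ} {c : V → V → ℝ} (hα : 0 ≤ α) (hc : ∀ y z, 0 ≤ c y z)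
    (hp : 0 ≤ p0 q α c) (e : Ev V q) : 0 ≤ prob α c e := by
  match e with
  | none => exact hp
  | some (Sum.inl _) => exact hα
  | some (Sum.inr (y, z)) => exact hc y z

theorem It_nonneg {α : ℝ} {c : V → V → ℝ} (hα : 0 ≤ α) (hc : ∀ y z, 0 ≤ c y z)
    (hp : 0 ≤ p0 q α c) (k : ℕ) : ∀ (F : (V → Fin q) → ℝ), (∀ x, 0 ≤ F x) → ∀ x,
    0 ≤ It α c k F x := by
  induction k with
  | zero => intro F hF x; exact hF x
  | succ k ih =>
    intro F hF x
    simp only [It]
    exact Finset.sum_nonneg fun e _ => mul_nonneg (prob_nonneg hα hc hp e)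
      (ih _ (fun x' => hF _) x)

theorem bb_nonneg {α : ℝ} {c : V → V → ℝ} (hα : 0 ≤ α) (hc : ∀ y z, 0 ≤ c y z)
    (hp : 0 ≤ p0 q α c) (a : Fin q) (k : ℕ) : ∀ (B : Finset V) (u v : V),
    0 ≤ bb α c a k B u v := by
  induction k with
  | zero => intro B u v; simp only [bb]; split_ifs <;> norm_num
  | succ k ih =>
    intro B u v
    simp only [bb]
    refine Finset.sum_nonneg fun e _ => mul_nonneg (prob_nonneg hα hc hp e)
      (mul_nonneg (sq_nonneg _) ?_)
    rcases nU e u with _ | u'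
    · exact le_rfl
    · exact ih _ _ _

theorem Q_sq_le {α : ℝ} {c : V → V → ℝ} (hα : 0 ≤ α) (hc : ∀ y z, 0 ≤ c y z)
    (hp : 0 ≤ p0 q α c) (a : Fin q) (k : ℕ) : ∀ (B : Finset V) (u v : V)
    (F : (V → Fin q) → ℝ) (x : V → Fin q),
    (Q α c a k B u v F x) ^ 2 ≤ bb α c a k B u v * It α c k (fun x' => (F x') ^ 2) x := by
  induction k with
  | zero =>
    intro B u v F x
    simp only [Q, bb, It]
    split_ifs <;> simp
  | succ k ih =>
    intro B u v F x
    simp only [Q, bb, It]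
    have hI : ∀ e : Ev V q, 0 ≤ It α c k (fun x' => (F (act e x')) ^ 2) x := fun e =>
      It_nonneg hα hc hp k _ (fun _ => sq_nonneg _) x
    apply cs_sum
    · intro e _
      refine mul_nonneg (prob_nonneg hα hc hp e) (mul_nonneg (sq_nonneg _) ?_)
      rcases nU e u with _ | u'
      · exact le_rfl
      · exact bb_nonneg hα hc hp a k _ _ _
    · intro e _
      exact mul_nonneg (prob_nonneg hα hc hp e) (hI e)
    · intro e _
      have h1 := prob_nonneg (q := q) hα hc hp e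
      rcases nU e u with _ | u'
      · simp
      · simp only
        have h2 := ih (nB e B) u' v (fun x' => F (act e x')) x
        have h3 : 0 ≤ (prob α c e) ^ 2 * (rho α c a e B u) ^ 2 := by positivity
        calc (prob α c e * (rho α c a e B u *
              Q α c a k (nB e B) u' v (fun x' => F (act e x')) x)) ^ 2
            = (prob α c e) ^ 2 * (rho α c a e B u) ^ 2 *
              (Q α c a k (nB e B) u' v (fun x' => F (act e x')) x) ^ 2 := by ring
          _ ≤ (prob α c e) ^ 2 * (rho α c a e B u) ^ 2 *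
              (bb α c a k (nB e B) u' v * It α c k (fun x' => (F (act e x')) ^ 2) x) :=
              mul_le_mul_of_nonneg_left h2 h3
          _ = _ := by ring

end Pool.Agent.helper69.NV
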