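import Pool.Agent.helper69.NV.Pot

/-!
Commutation inequality for the squared gradient.
-/

namespace Pool.Agent.helper69.NV

open Finset

variable {V : Type} [Fintype V] [DecidableEq V] {q : ℕ}
variable {α : ℝ} {c : V → V → ℝ} {θ h K D : ℝ} {m : V → ℝ}

theorem kk_nonneg (H : Good q α c θ h K D m) (k : ℕ) : ∀ u v : V, 0 ≤ kk q α c k u v := by
  induction k with
  | zero => intro u v; simp only [kk]; split_ifs <;> norm_num
  | succ k ih =>
    intro u v
    simp only [kk]
    have := one_sub_hh H u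
    exact add_nonneg (mul_nonneg (by linarith) (ih u v))
      (Finset.sum_nonneg fun z _ => mul_nonneg (H.c_nonneg u z) (ih z v))

theorem It_sum {ι : Type*} (s : Finset ι) (k : ℕ) (F : ι → (V → Fin q) → ℝ) (x : V → Fin q) :
    It α c k (fun x' => ∑ i ∈ s, F i x') x = ∑ i ∈ s, It α c k (F i) x := by
  classical
  induction s using Finset.induction_on with
  | empty =>
    simp only [Finset.sum_empty]
    have := It_smul α c k 0 (fun _ => 0) x
    simpa using this
  | insert i s hi ih =>
    simp only [Finset.sum_insert hi]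
    rw [It_add α c k (F i) (fun x' => ∑ i ∈ s, F i x') x, ih]

/-- data about the distance used in the exponential weights -/
structure DistOK (c : V → V → ℝ) (θ : ℝ) (d : V → V → ℕ) (L T : ℝ) : Prop where
  self : ∀ v, d v v = 0
  step : ∀ w z v, c w z ≠ 0 → d w v ≤ d z v + 1
  one_le : 1 ≤ L
  small : (L - 1) * (1 - θ) ≤ θ / 2
  row : ∀ w, ∑ v, (L ^ d w v)⁻¹ ≤ T
  col : ∀ v, ∑ w, (L ^ d w v)⁻¹ ≤ T

theorem contr (H : Good q α c θ h K D m) {d : V → V → ℕ} {L T : ℝ} (hd : DistOK c θ d L T)
    (w : V) : (1 - hh q α c w) + L * ∑ z, c w z ≤ 1 - θ * h / 2 := by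
  have e1 : hh q α c w = θ * h + ∑ z, c w z := by unfold hh; rw [H.noise]
  have e2 : ∑ z, c w z ≤ (1 - θ) * h := by
    have := H.hh_le w
    rw [e1] at this
    linarith
  have e3 := hd.one_le
  have e4 := hd.small
  have e5 := H.h_pos
  have e6 : (L - 1) * ∑ z, c w z ≤ (L - 1) * ((1 - θ) * h) :=
    mul_le_mul_of_nonneg_left e2 (by linarith)
  have e7 : (L - 1) * ((1 - θ) * h) ≤ θ / 2 * h := by
    have := mul_le_mul_of_nonneg_right e4 e5.le
    linarith
  rw [e1]
  linarith

theorem contr_nonneg (H : Good q α c θ h K D m) {d : V → V → ℕ} {L T : ℝ}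
    (hd : DistOK c θ d L T) (w : V) : 0 ≤ 1 - θ * h / 2 := by
  refine le_trans ?_ (contr H hd w)
  have h1 := one_sub_hh H w
  have h2 := hd.one_le
  have h3 : 0 ≤ ∑ z, c w z := Finset.sum_nonneg fun z _ => H.c_nonneg w z
  positivity

theorem row_weight (H : Good q α c θ h K D m) {d : V → V → ℕ} {L T : ℝ}
    (hd : DistOK c θ d L T) (k : ℕ) : ∀ w : V,
    ∑ v, kk q α c k w v * L ^ d w v ≤ (1 - θ * h / 2) ^ k := by
  have hL : 0 < L := lt_of_lt_of_le one_pos hd.one_le
  induction k with
  | zero =>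
    intro w
    simp only [kk, ite_mul, one_mul, zero_mul, pow_zero]
    rw [Finset.sum_ite_eq Finset.univ w]
    simp [hd.self]
  | succ k ih =>
    intro w
    have h0 := contr_nonneg H hd w
    have h1 := one_sub_hh H w
    have hstep : ∀ z, c w z * ∑ v, kk q α c k z v * L ^ d w v ≤
        c w z * (L * (1 - θ * h / 2) ^ k) := by
      intro z
      by_cases hz : c w z = 0
      · simp [hz]
      · refine mul_le_mul_of_nonneg_left ?_ (H.c_nonneg w z)
        calc ∑ v, kk q α c k z v * L ^ d w v ≤ ∑ v, L * (kk q α c k z v * L ^ d z v) := by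
              refine Finset.sum_le_sum fun v _ => ?_
              have h2 : L ^ d w v ≤ L * L ^ d z v := by
                rw [← pow_succ']
                exact pow_le_pow_right₀ hd.one_le (hd.step w z v hz)
              have := mul_le_mul_of_nonneg_left h2 (kk_nonneg H k z v)
              linarith
          _ = L * ∑ v, kk q α c k z v * L ^ d z v := by rw [Finset.mul_sum]
          _ ≤ _ := mul_le_mul_of_nonneg_left (ih z) hL.le
    have e1 : ∑ v, kk q α c (k+1) w v * L ^ d w v =
        (1 - hh q α c w) * ∑ v, kk q α c k w v * L ^ d w v +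
          ∑ z, c w z * ∑ v, kk q α c k z v * L ^ d w v := by
      simp only [kk]
      simp only [Finset.mul_sum]
      rw [Finset.sum_comm (s := Finset.univ) (t := Finset.univ)
        (f := fun z v => c w z * (kk q α c k z v * L ^ d w v)), ← Finset.sum_add_distrib]
      refine Finset.sum_congr rfl fun v _ => ?_
      rw [add_mul, Finset.sum_mul]
      congr 1
      · ring
      · exact Finset.sum_congr rfl fun z _ => by ring
    rw [e1]
    calc (1 - hh q α c w) * ∑ v, kk q α c k w v * L ^ d w v +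
          ∑ z, c w z * ∑ v, kk q α c k z v * L ^ d w v
        ≤ (1 - hh q α c w) * (1 - θ * h / 2) ^ k + ∑ z, c w z * (L * (1 - θ * h / 2) ^ k) :=
          add_le_add (mul_le_mul_of_nonneg_left (ih w) (by linarith))
            (Finset.sum_le_sum fun z _ => hstep z)
      _ = ((1 - hh q α c w) + L * ∑ z, c w z) * (1 - θ * h / 2) ^ k := by
          rw [← Finset.sum_mul]; ring
      _ ≤ (1 - θ * h / 2) * (1 - θ * h / 2) ^ k :=
          mul_le_mul_of_nonneg_right (contr H hd w) (pow_nonneg h0 k)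
      _ = _ := by ring

theorem col_weight (H : Good q α c θ h K D m) {d : V → V → ℕ} {L T : ℝ}
    (hd : DistOK c θ d L T) (v : V) (k : ℕ) :
    ∑ w, m w * (kk q α c k w v * L ^ d w v) ≤ D * (1 - θ * h / 2) ^ k := by
  have hL : 0 < L := lt_of_lt_of_le one_pos hd.one_le
  have h0 := contr_nonneg H hd v
  induction k with
  | zero =>
    simp only [kk, ite_mul, one_mul, zero_mul, mul_ite, mul_zero, pow_zero]
    rw [Finset.sum_ite_eq' Finset.univ v]
    simp [hd.self, H.m_le]
  | succ k ih =>
    have hm : ∀ w, 0 ≤ m w := fun w => by linarith [H.one_le_m w]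
    have e1 : ∑ w, m w * (kk q α c (k+1) w v * L ^ d w v) =
        ∑ w, m w * ((1 - hh q α c w) * (kk q α c k w v * L ^ d w v)) +
          ∑ z, ∑ w, m w * c w z * (kk q α c k z v * L ^ d w v) := by
      rw [Finset.sum_comm (s := Finset.univ) (t := Finset.univ)
        (f := fun z w => m w * c w z * (kk q α c k z v * L ^ d w v)), ← Finset.sum_add_distrib]
      refine Finset.sum_congr rfl fun w _ => ?_
      simp only [kk]
      rw [add_mul, mul_add, Finset.sum_mul, Finset.mul_sum]
      congr 1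
      · ring
      · exact Finset.sum_congr rfl fun z _ => by ring
    have e2 : ∀ z, ∑ w, m w * c w z * (kk q α c k z v * L ^ d w v) ≤
        m z * (L * (∑ w, c z w) * (kk q α c k z v * L ^ d z v)) := by
      intro z
      have : m z * (L * (∑ w, c z w) * (kk q α c k z v * L ^ d z v)) =
          ∑ w, m z * c z w * (L * (kk q α c k z v * L ^ d z v)) := by
        rw [← Finset.sum_mul, ← Finset.mul_sum]; ring
      rw [this]
      refine Finset.sum_le_sum fun w _ => ?_
      rw [H.rev w z]
      by_cases hz : c w z = 0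
      · have h3 : m z * c z w = 0 := by rw [← H.rev w z, hz, mul_zero]
        simp [h3]
      · refine mul_le_mul_of_nonneg_left ?_ (mul_nonneg (hm z) (H.c_nonneg _ _))
        have h2 : L ^ d w v ≤ L * L ^ d z v := by
          rw [← pow_succ']
          exact pow_le_pow_right₀ hd.one_le (hd.step w z v hz)
        have := mul_le_mul_of_nonneg_left h2 (kk_nonneg H k z v)
        linarith
    rw [e1]
    calc ∑ w, m w * ((1 - hh q α c w) * (kk q α c k w v * L ^ d w v)) +
          ∑ z, ∑ w, m w * c w z * (kk q α c k z v * L ^ d w v)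
        ≤ ∑ w, m w * ((1 - hh q α c w) * (kk q α c k w v * L ^ d w v)) +
          ∑ z, m z * (L * (∑ w, c z w) * (kk q α c k z v * L ^ d z v)) :=
          add_le_add le_rfl (Finset.sum_le_sum fun z _ => e2 z)
      _ = ∑ w, ((1 - hh q α c w) + L * ∑ z, c w z) * (m w * (kk q α c k w v * L ^ d w v)) := by
          rw [← Finset.sum_add_distrib]
          exact Finset.sum_congr rfl fun w _ => by ring
      _ ≤ ∑ w, (1 - θ * h / 2) * (m w * (kk q α c k w v * L ^ d w v)) := by
          refine Finset.sum_le_sum fun w _ => mul_le_mul_of_nonneg_right (contr H hd w) ?_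
          exact mul_nonneg (hm w) (mul_nonneg (kk_nonneg H k w v) (pow_nonneg hL.le _))
      _ = (1 - θ * h / 2) * ∑ w, m w * (kk q α c k w v * L ^ d w v) := by rw [Finset.mul_sum]
      _ ≤ (1 - θ * h / 2) * (D * (1 - θ * h / 2) ^ k) := mul_le_mul_of_nonneg_left ih h0
      _ = _ := by ring

theorem sqrt_sum_le {ι : Type*} (s : Finset ι) (f w : ι → ℝ) (hf : ∀ i ∈ s, 0 ≤ f i)
    (hw : ∀ i ∈ s, 0 < w i) :
    (∑ i ∈ s, √(f i)) ^ 2 ≤ (∑ i ∈ s, f i * w i) * (∑ i ∈ s, (w i)⁻¹) := by
  apply cs_sum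
  · intro i hi; exact mul_nonneg (hf i hi) (hw i hi).le
  · intro i hi; exact (inv_pos.mpr (hw i hi)).le
  · intro i hi
    rw [Real.sq_sqrt (hf i hi)]
    have := (hw i hi).ne'
    field_simp
    exact le_rfl

/-- squared gradient -/
noncomputable def GG (g : (V → Fin q) → ℝ) (x : V → Fin q) : ℝ :=
  ∑ a : Fin q, ∑ v, (del a v g x) ^ 2

theorem schur {ι κ : Type*} (s : Finset ι) (t : Finset κ) (A : ι → κ → ℝ) (y : ι → ℝ)
    (hA : ∀ i ∈ s, ∀ j ∈ t, 0 ≤ A i j) {R C : ℝ} (hR : ∀ i ∈ s, ∑ j ∈ t, A i j ≤ R)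
    (hC : ∀ j ∈ t, ∑ i ∈ s, A i j ≤ C) (hC0 : 0 ≤ C) :
    ∑ j ∈ t, (∑ i ∈ s, A i j * y i) ^ 2 ≤ C * R * ∑ i ∈ s, (y i) ^ 2 := by
  calc ∑ j ∈ t, (∑ i ∈ s, A i j * y i) ^ 2
      ≤ ∑ j ∈ t, (∑ i ∈ s, A i j) * (∑ i ∈ s, A i j * (y i) ^ 2) := by
        refine Finset.sum_le_sum fun j hj => ?_
        apply cs_sum
        · intro i hi; exact hA i hi j hj
        · intro i hi; exact mul_nonneg (hA i hi j hj) (sq_nonneg _)
        · intro i hi; exact le_of_eq (by ring)
    _ ≤ ∑ j ∈ t, C * (∑ i ∈ s, A i j * (y i) ^ 2) := by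
        refine Finset.sum_le_sum fun j hj => mul_le_mul_of_nonneg_right (hC j hj) ?_
        exact Finset.sum_nonneg fun i hi => mul_nonneg (hA i hi j hj) (sq_nonneg _)
    _ = C * ∑ i ∈ s, (∑ j ∈ t, A i j) * (y i) ^ 2 := by
        rw [← Finset.mul_sum, Finset.sum_comm]
        congr 1
        exact Finset.sum_congr rfl fun i _ => by rw [Finset.sum_mul]
    _ ≤ C * ∑ i ∈ s, R * (y i) ^ 2 := by
        refine mul_le_mul_of_nonneg_left (Finset.sum_le_sum fun i hi => ?_) hC0
        exact mul_le_mul_of_nonneg_right (hR i hi) (sq_nonneg _)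
    _ = _ := by rw [← Finset.mul_sum]; ring

/-- the commutation inequality, one colour -/
theorem comm_one (H : Good q α c θ h K D m) {S0 : ℝ} (hs : Small θ h K D S0)
    {d : V → V → ℕ} {L T : ℝ} (hd : DistOK c θ d L T) (hT : 0 ≤ T) (a : Fin q) (k : ℕ)
    (g : (V → Fin q) → ℝ) (x : V → Fin q) :
    ∑ v, (del a v (It α c k g) x) ^ 2 ≤
      (Real.exp S0 * √D * T * (1 - θ * h / 2) ^ k) *
        It α c k (fun x' => ∑ w, (del a w g x') ^ 2) x := by
  classical
  rcases isEmpty_or_nonempty V with hV | ⟨⟨v0⟩⟩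
  · simp only [Finset.univ_eq_empty, Finset.sum_empty]
    have := It_smul α c k 0 (fun _ => 0) x
    simp only [zero_mul] at this
    rw [this]
    simp
  have hL : 0 < L := lt_of_lt_of_le one_pos hd.one_le
  have h0 := contr_nonneg H hd v0
  have hD := hs.D_nonneg
  set Y : V → ℝ := fun w => √(It α c k (fun x' => (del a w g x') ^ 2) x) with hY
  have hI : ∀ w, 0 ≤ It α c k (fun x' => (del a w g x') ^ 2) x := fun w =>
    It_nonneg H.α_pos.le H.c_nonneg H.p0_nonneg k _ (fun _ => sq_nonneg _) x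
  set A : V → V → ℝ := fun w v => √(Real.exp S0) * √(kk q α c k w v) with hA
  have hA0 : ∀ w v, 0 ≤ A w v := fun w v => mul_nonneg (Real.sqrt_nonneg _) (Real.sqrt_nonneg _)
  -- pointwise bound
  have hpt : ∀ v, (del a v (It α c k g) x) ^ 2 ≤ (∑ w, A w v * Y w) ^ 2 := by
    intro v
    have e1 : del a v (It α c k g) x = ∑ w, Q α c a k Finset.univ w v (del a w g) x := by
      unfold del
      exact tele α c H.α_pos H.c_self a v k Finset.univ g (fun x y hxy => by
        have : x = y := funext fun w => hxy w (Finset.mem_univ w)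
        rw [this]) x
    rw [e1]
    apply sq_le_sq'
    · have : ∀ w, -(A w v * Y w) ≤ Q α c a k Finset.univ w v (del a w g) x := by
        intro w
        have h1 := Q_sq_le H.α_pos.le H.c_nonneg H.p0_nonneg a k Finset.univ w v (del a w g) x
        have h2 := bb_le H hs a k Finset.univ w v
        have h3 : (Q α c a k Finset.univ w v (del a w g) x) ^ 2 ≤ (A w v * Y w) ^ 2 := by
          refine h1.trans ?_
          have : (A w v * Y w) ^ 2 = (Real.exp S0 * kk q α c k w v) *
              It α c k (fun x' => (del a w g x') ^ 2) x := by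
            simp only [hA, hY]
            rw [mul_pow, mul_pow, Real.sq_sqrt (Real.exp_pos _).le,
              Real.sq_sqrt (kk_nonneg H k w v), Real.sq_sqrt (hI w)]
          rw [this]
          exact mul_le_mul_of_nonneg_right h2 (hI w)
        exact (abs_le.mp (abs_le_of_sq_le_sq h3 (mul_nonneg (hA0 w v) (Real.sqrt_nonneg _)))).1
      rw [← Finset.sum_neg_distrib]
      exact Finset.sum_le_sum fun w _ => this w
    · have : ∀ w, Q α c a k Finset.univ w v (del a w g) x ≤ A w v * Y w := by
        intro w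
        have h1 := Q_sq_le H.α_pos.le H.c_nonneg H.p0_nonneg a k Finset.univ w v (del a w g) x
        have h2 := bb_le H hs a k Finset.univ w v
        have h3 : (Q α c a k Finset.univ w v (del a w g) x) ^ 2 ≤ (A w v * Y w) ^ 2 := by
          refine h1.trans ?_
          have : (A w v * Y w) ^ 2 = (Real.exp S0 * kk q α c k w v) *
              It α c k (fun x' => (del a w g x') ^ 2) x := by
            simp only [hA, hY]
            rw [mul_pow, mul_pow, Real.sq_sqrt (Real.exp_pos _).le,
              Real.sq_sqrt (kk_nonneg H k w v), Real.sq_sqrt (hI w)]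
          rw [this]
          exact mul_le_mul_of_nonneg_right h2 (hI w)
        exact (abs_le.mp (abs_le_of_sq_le_sq h3 (mul_nonneg (hA0 w v) (Real.sqrt_nonneg _)))).2
      exact Finset.sum_le_sum fun w _ => this w
  -- row and column sums
  set ρ := (1 - θ * h / 2) ^ k with hρ
  have hρ0 : 0 ≤ ρ := pow_nonneg h0 k
  have hrow : ∀ w, ∑ v, A w v ≤ √(Real.exp S0) * √(ρ * T) := by
    intro w
    rw [← Finset.mul_sum]
    refine mul_le_mul_of_nonneg_left ?_ (Real.sqrt_nonneg _)
    apply Real.le_sqrt_of_sq_le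
    refine (sqrt_sum_le Finset.univ (fun v => kk q α c k w v) (fun v => L ^ d w v)
      (fun v _ => kk_nonneg H k w v) (fun v _ => pow_pos hL _)).trans ?_
    apply mul_le_mul (row_weight H hd k w) (hd.row w) _ hρ0
    exact Finset.sum_nonneg fun v _ => (inv_pos.mpr (pow_pos hL _)).le
  have hcol : ∀ v, ∑ w, A w v ≤ √(Real.exp S0) * √(D * ρ * T) := by
    intro v
    rw [← Finset.mul_sum]
    refine mul_le_mul_of_nonneg_left ?_ (Real.sqrt_nonneg _)
    apply Real.le_sqrt_of_sq_le
    refine (sqrt_sum_le Finset.univ (fun w => kk q α c k w v) (fun w => L ^ d w v)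
      (fun w _ => kk_nonneg H k w v) (fun w _ => pow_pos hL _)).trans ?_
    have h1 : ∑ w, kk q α c k w v * L ^ d w v ≤ D * ρ := by
      refine le_trans (Finset.sum_le_sum fun w _ => ?_) (col_weight H hd v k)
      have h2 : 0 ≤ kk q α c k w v * L ^ d w v :=
        mul_nonneg (kk_nonneg H k w v) (pow_nonneg hL.le _)
      nlinarith [H.one_le_m w]
    apply mul_le_mul h1 (hd.col v) _ (mul_nonneg hD hρ0)
    exact Finset.sum_nonneg fun v _ => (inv_pos.mpr (pow_pos hL _)).le
  have hfin := schur Finset.univ Finset.univ A Y (fun w _ v _ => hA0 w v)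
    (fun w _ => hrow w) (fun v _ => hcol v) (by positivity)
  calc ∑ v, (del a v (It α c k g) x) ^ 2 ≤ ∑ v, (∑ w, A w v * Y w) ^ 2 :=
        Finset.sum_le_sum fun v _ => hpt v
    _ ≤ _ := hfin
    _ = _ := by
      have e1 : ∑ w, (Y w) ^ 2 = It α c k (fun x' => ∑ w, (del a w g x') ^ 2) x := by
        rw [It_sum]
        exact Finset.sum_congr rfl fun w _ => Real.sq_sqrt (hI w)
      rw [e1]
      congr 1
      have e2 : √(D * ρ * T) = √D * √(ρ * T) := by
        rw [← Real.sqrt_mul hD]; congr 1; ring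
      have e3 : √(ρ * T) * √(ρ * T) = ρ * T := Real.mul_self_sqrt (mul_nonneg hρ0 hT)
      have e4 : √(Real.exp S0) * √(Real.exp S0) = Real.exp S0 :=
        Real.mul_self_sqrt (Real.exp_pos _).le
      rw [e2]
      calc √(Real.exp S0) * (√D * √(ρ * T)) * (√(Real.exp S0) * √(ρ * T))
          = (√(Real.exp S0) * √(Real.exp S0)) * √D * (√(ρ * T) * √(ρ * T)) := by ring
        _ = _ := by rw [e3, e4]; ring

/-- the commutation inequality -/
theorem comm (H : Good q α c θ h K D m) {S0 : ℝ} (hs : Small θ h K D S0)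
    {d : V → V → ℕ} {L T : ℝ} (hd : DistOK c θ d L T) (hT : 0 ≤ T) (k : ℕ)
    (g : (V → Fin q) → ℝ) (x : V → Fin q) :
    GG (It α c k g) x ≤ (Real.exp S0 * √D * T * (1 - θ * h / 2) ^ k) * It α c k (GG g) x := by
  unfold GG
  rw [It_sum Finset.univ k (fun a x' => ∑ v, (del a v g x') ^ 2) x, Finset.mul_sum]
  exact Finset.sum_le_sum fun a _ => comm_one H hs hd hT a k g x

end Pool.Agent.helper69.NV
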