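import Mathlib

/-!
The noisy voter model on a finite graph: definitions.
-/

namespace Pool.Agent.helper69.NV

open Finset

variable {V : Type} [Fintype V] [DecidableEq V]

/-- Generator matrix (Q-matrix) of the `q`-state noisy voter model with noise `θ` on `G`:
`gen G q θ x y` is the jump rate from the configuration `x` to the configuration `y ≠ x`, and
minus the total jump rate out of `x` if `y = x`. At rate `1` the clock of a vertex `v` rings; with
probability `θ` its colour becomes uniform; with probability `1 - θ` it becomes the colour of a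
uniform neighbour `u` of `v`. -/
noncomputable def gen (G : SimpleGraph V) [DecidableRel G.Adj] (q : ℕ) (θ : ℝ) :
    Matrix (V → Fin q) (V → Fin q) ℝ := fun x y =>
  ∑ v, (θ * ∑ b : Fin q, (1 / (q : ℝ)) *
        ((if y = Function.update x v b then 1 else 0) - (if y = x then 1 else 0)) +
      (1 - θ) * ∑ u ∈ G.neighborFinset v, (1 / (G.degree v : ℝ)) *
        ((if y = Function.update x v (x u) then 1 else 0) - (if y = x then 1 else 0)))

/-- Law at time `t` of the chain started at `x₀`: row `x₀` of `exp (t L)`, `L` the generator. -/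
noncomputable def law (G : SimpleGraph V) [DecidableRel G.Adj] (q : ℕ) (θ : ℝ)
    (x₀ : V → Fin q) (t : ℝ) (y : V → Fin q) : ℝ :=
  (NormedSpace.exp (t • gen G q θ)) x₀ y

/-- Total variation distance. -/
noncomputable def tv {Ω : Type} [Fintype Ω] (μ ν : Ω → ℝ) : ℝ := (1 / 2) * ∑ y, |μ y - ν y|

/-- `μ` is a stationary distribution of the noisy voter model. -/
def IsStationary (G : SimpleGraph V) [DecidableRel G.Adj] (q : ℕ) (θ : ℝ)
    (μ : (V → Fin q) → ℝ) : Prop :=
  (∀ y, 0 ≤ μ y) ∧ ∑ y, μ y = 1 ∧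
    ∀ t : ℝ, 0 ≤ t → ∀ y, ∑ x, μ x * law G q θ x t y = μ y

/-- Mixing time from `x₀`. -/
noncomputable def tmix (G : SimpleGraph V) [DecidableRel G.Adj] (q : ℕ) (θ : ℝ)
    (μ : (V → Fin q) → ℝ) (x₀ : V → Fin q) (ε : ℝ) : ℝ :=
  sInf {t : ℝ | 0 ≤ t ∧ tv (law G q θ x₀ t) μ ≤ ε}

/-- Balls of radius `r ≥ 1` have at most `c₀ exp (r ^ (1 - α))` vertices. -/
def SubexpBalls (G : SimpleGraph V) (c₀ α : ℝ) : Prop :=
  ∀ (v : V) (r : ℕ), 1 ≤ r →
    ((Finset.univ.filter fun u => G.dist v u ≤ r).card : ℝ) ≤ c₀ * Real.exp ((r : ℝ) ^ (1 - α))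

end Pool.Agent.helper69.NV
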