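import Mathlib

/-!
Euler approximation of the exponential in a Banach algebra.
-/

namespace Pool.Agent.helper69.NV

open Filter Topology NormedSpace

section

variable {𝔸 : Type*} [NormedRing 𝔸] [NormOneClass 𝔸] [NormedAlgebra ℝ 𝔸]

omit [NormedAlgebra ℝ 𝔸] in
theorem norm_pow_sub_pow_le' (a b : 𝔸) {R : ℝ} (hR : 1 ≤ R) (ha : ‖a‖ ≤ R) (hb : ‖b‖ ≤ R)
    (m : ℕ) : ‖a ^ m - b ^ m‖ ≤ m * R ^ m * ‖a - b‖ := by
  induction m with
  | zero => simp
  | succ m ih =>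
    have e1 : a ^ (m+1) - b ^ (m+1) = a ^ m * (a - b) + (a ^ m - b ^ m) * b := by
      rw [pow_succ, pow_succ]; noncomm_ring
    rw [e1]
    have h1 : ‖a ^ m * (a - b)‖ ≤ R ^ m * ‖a - b‖ := by
      refine (norm_mul_le _ _).trans (mul_le_mul_of_nonneg_right ?_ (norm_nonneg _))
      exact (norm_pow_le a m).trans (pow_le_pow_left₀ (norm_nonneg _) ha m)
    have h2 : ‖(a ^ m - b ^ m) * b‖ ≤ (m * R ^ m * ‖a - b‖) * R := by
      refine (norm_mul_le _ _).trans (mul_le_mul ih hb (norm_nonneg _) ?_)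
      positivity
    refine (norm_add_le _ _).trans ((add_le_add h1 h2).trans ?_)
    have h3 : R ^ m * ‖a - b‖ ≤ R ^ (m+1) * ‖a - b‖ :=
      mul_le_mul_of_nonneg_right (pow_le_pow_right₀ hR (Nat.le_succ m)) (norm_nonneg _)
    calc R ^ m * ‖a - b‖ + (m * R ^ m * ‖a - b‖) * R
        ≤ R ^ (m+1) * ‖a - b‖ + (m * R ^ m * ‖a - b‖) * R := by linarith
      _ = _ := by push_cast; rw [pow_succ]; ring

variable [CompleteSpace 𝔸]

theorem norm_exp_le' (x : 𝔸) : ‖exp x‖ ≤ Real.exp ‖x‖ := by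
  have h1 := exp_series_hasSum_exp' (𝕂 := ℝ) x
  have h2 := exp_series_hasSum_exp' (𝕂 := ℝ) ‖x‖
  rw [← Real.exp_eq_exp_ℝ] at h2
  refine h1.norm_le_of_bounded h2 fun i => ?_
  rw [norm_smul, smul_eq_mul]
  have : ‖((i.factorial : ℝ)⁻¹)‖ = ((i.factorial : ℝ)⁻¹) := Real.norm_of_nonneg (by positivity)
  rw [this]
  exact mul_le_mul_of_nonneg_left (norm_pow_le x i) (by positivity)

/-- Euler scheme -/
theorem euler (A : 𝔸) (t : ℝ) (h : ℕ → ℝ) (m : ℕ → ℕ) (hpos : ∀ᶠ i in atTop, 0 < h i)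
    (h0 : Tendsto h atTop (𝓝 0)) (hm : Tendsto (fun i => (m i : ℝ) * h i) atTop (𝓝 t)) :
    Tendsto (fun i => (1 + h i • A) ^ (m i)) atTop (𝓝 (exp (t • A))) := by
  let _ : NormedAlgebra ℚ 𝔸 := NormedAlgebra.restrictScalars ℚ ℝ 𝔸
  have hd : HasDerivAt (fun u : ℝ => exp (u • A)) (exp ((0:ℝ) • A) * A) 0 :=
    hasDerivAt_exp_smul_const A (0:ℝ)
  rw [zero_smul, exp_zero, one_mul] at hd
  have hsl := (hasDerivAt_iff_tendsto_slope_zero.1 hd)
  have hh' : Tendsto h atTop (𝓝[≠] 0) :=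
    tendsto_nhdsWithin_iff.2 ⟨h0, hpos.mono fun i hi => ne_of_gt hi⟩
  have h1 : Tendsto (fun i => (h i)⁻¹ • (exp ((0 + h i) • A) - exp ((0:ℝ) • A))) atTop (𝓝 A) :=
    hsl.comp hh'
  have h2 : Tendsto (fun i => (h i)⁻¹ * ‖(1 + h i • A) - exp (h i • A)‖) atTop (𝓝 0) := by
    have h3 : Tendsto (fun i => ‖(h i)⁻¹ • (exp ((0 + h i) • A) - exp ((0:ℝ) • A)) - A‖) atTop
        (𝓝 0) := by
      have := (h1.sub_const A).norm
      simpa using this
    refine h3.congr' (hpos.mono fun i hi => ?_)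
    have : (h i)⁻¹ • (exp ((0 + h i) • A) - exp ((0:ℝ) • A)) - A =
        (h i)⁻¹ • (exp (h i • A) - (1 + h i • A)) := by
      rw [zero_add, zero_smul, exp_zero, ← sub_sub, smul_sub (h i)⁻¹ _ (h i • A), smul_smul,
        inv_mul_cancel₀ hi.ne', one_smul]
    simp only [this]
    rw [norm_smul, norm_inv, Real.norm_of_nonneg hi.le, norm_sub_rev]
  -- norms bounded
  have h4 : Tendsto (fun i => (m i : ℝ) * Real.exp (m i * h i * ‖A‖) *
      ‖(1 + h i • A) - exp (h i • A)‖) atTop (𝓝 0) := by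
    have e1 : Tendsto (fun i => (((m i : ℝ) * h i) * Real.exp (m i * h i * ‖A‖)) *
        ((h i)⁻¹ * ‖(1 + h i • A) - exp (h i • A)‖)) atTop
        (𝓝 ((t * Real.exp (t * ‖A‖)) * 0)) := by
      refine Tendsto.mul (hm.mul ?_) h2
      exact (Real.continuous_exp.tendsto _).comp (hm.mul_const _)
    rw [mul_zero] at e1
    refine e1.congr' (hpos.mono fun i hi => ?_)
    have hi' := hi.ne'
    field_simp
  have h5 : Tendsto (fun i => (1 + h i • A) ^ (m i) - (exp (h i • A)) ^ (m i)) atTop (𝓝 0) := by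
    refine squeeze_zero_norm' (hpos.mono fun i hi => ?_) h4
    have hR : 1 ≤ Real.exp (h i * ‖A‖) := Real.one_le_exp (by positivity)
    have ha : ‖1 + h i • A‖ ≤ Real.exp (h i * ‖A‖) := by
      refine (norm_add_le _ _).trans ?_
      rw [norm_one, norm_smul, Real.norm_of_nonneg hi.le, add_comm]
      exact Real.add_one_le_exp _
    have hb : ‖exp (h i • A)‖ ≤ Real.exp (h i * ‖A‖) := by
      refine (norm_exp_le' _).trans (le_of_eq ?_)
      rw [norm_smul, Real.norm_of_nonneg hi.le]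
    refine (norm_pow_sub_pow_le' _ _ hR ha hb (m i)).trans (le_of_eq ?_)
    rw [← Real.exp_nat_mul]
    ring_nf
  have h6 : Tendsto (fun i => (exp (h i • A)) ^ (m i)) atTop (𝓝 (exp (t • A))) := by
    have e1 : ∀ i, (exp (h i • A)) ^ (m i) = exp (((m i : ℝ) * h i) • A) := by
      intro i
      rw [← exp_nsmul, ← smul_smul, Nat.cast_smul_eq_nsmul]
    simp only [e1]
    exact (exp_continuous.tendsto _).comp (hm.smul_const A)
  have h7 := h5.add h6
  simpa using h7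

end

end Pool.Agent.helper69.NV
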