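import Pool.Agent.helper69.NV.Var
import Pool.Agent.helper69.NV.Lim
import Pool.Agent.helper69.NV.Defs

/-!
Passage from the discrete dynamics to the continuous time dynamics.
-/

namespace Pool.Agent.helper69.NV

open Finset Filter Topology Matrix

variable {V : Type} [Fintype V] [DecidableEq V] (G : SimpleGraph V) [DecidableRel G.Adj]
  (q : ℕ) (θ : ℝ)

/-- discretised noise rate -/
noncomputable def al (q : ℕ) (θ h : ℝ) : ℝ := θ * h / q

/-- discretised copying rate -/
noncomputable def cc (θ h : ℝ) (y z : V) : ℝ := if G.Adj y z then h * (1 - θ) / G.degree y else 0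

variable {G q θ}

theorem gen_mulVec (F : (V → Fin q) → ℝ) (x : V → Fin q) :
    (gen G q θ *ᵥ F) x = ∑ v, (θ * ∑ b : Fin q, (1 / (q : ℝ)) * (F (Function.update x v b) - F x) +
      (1 - θ) * ∑ u ∈ G.neighborFinset v, (1 / (G.degree v : ℝ)) *
        (F (Function.update x v (x u)) - F x)) := by
  have key : ∀ z : V → Fin q, ∑ y, ((if y = z then (1:ℝ) else 0) - (if y = x then 1 else 0)) * F y =
      F z - F x := by
    intro z
    simp [sub_mul, Finset.sum_sub_distrib]
  simp only [Matrix.mulVec, dotProduct, gen]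
  simp only [Finset.sum_mul]
  rw [Finset.sum_comm]
  refine Finset.sum_congr rfl fun v _ => ?_
  simp only [add_mul, Finset.sum_add_distrib]
  congr 1
  · simp only [mul_assoc]
    rw [← Finset.mul_sum]
    congr 1
    simp only [Finset.sum_mul]
    rw [Finset.sum_comm]
    refine Finset.sum_congr rfl fun b _ => ?_
    rw [← key, Finset.mul_sum]
    exact Finset.sum_congr rfl fun y _ => by ring
  · simp only [mul_assoc]
    rw [← Finset.mul_sum]
    congr 1
    simp only [Finset.sum_mul]
    rw [Finset.sum_comm]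
    refine Finset.sum_congr rfl fun b _ => ?_
    rw [← key, Finset.mul_sum]
    exact Finset.sum_congr rfl fun y _ => by ring

theorem It_one_eq (h : ℝ) (F : (V → Fin q) → ℝ) (x : V → Fin q) :
    It (al q θ h) (cc G θ h) 1 F x = ((1 + h • gen G q θ) *ᵥ F) x := by
  rw [Matrix.add_mulVec, Matrix.one_mulVec, Matrix.smul_mulVec, Pi.add_apply, Pi.smul_apply,
    gen_mulVec]
  simp only [It]
  rw [sum_ev]
  simp only [prob, act, p0, hh]
  have e1 : ∀ v, ∑ z, cc G θ h v z * F (Function.update x v (x z)) =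
      h * ((1 - θ) * ∑ u ∈ G.neighborFinset v, (1 / (G.degree v : ℝ)) *
        (F (Function.update x v (x u)) - F x)) + (∑ z, cc G θ h v z) * F x := by
    intro v
    have e2 : ∑ u ∈ G.neighborFinset v, (1 / (G.degree v : ℝ)) *
        (F (Function.update x v (x u)) - F x) = ∑ u, (if G.Adj v u then
          (1 / (G.degree v : ℝ)) * (F (Function.update x v (x u)) - F x) else 0) := by
      rw [← Finset.sum_filter]
      refine Finset.sum_congr ?_ fun _ _ => rfl
      ext u; simp
    rw [e2, Finset.sum_mul, Finset.mul_sum, Finset.mul_sum, ← Finset.sum_add_distrib]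
    refine Finset.sum_congr rfl fun u _ => ?_
    unfold cc
    split_ifs <;> ring
  have e3 : ∀ v, ∑ b : Fin q, al q θ h * F (Function.update x v b) =
      h * (θ * ∑ b : Fin q, (1 / (q : ℝ)) * (F (Function.update x v b) - F x)) +
        (q * al q θ h) * F x := by
    intro v
    have : (q * al q θ h) * F x = ∑ b : Fin q, al q θ h * F x := by
      simp [mul_assoc]
    rw [this, Finset.mul_sum, Finset.mul_sum, ← Finset.sum_add_distrib]
    refine Finset.sum_congr rfl fun b _ => ?_
    unfold al; ring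
  simp only [e1, e3, Finset.sum_add_distrib, smul_eq_mul, mul_add, sub_mul, Finset.mul_sum,
    Finset.sum_mul, one_mul, add_mul]
  ring

theorem It_eq (h : ℝ) (k : ℕ) (F : (V → Fin q) → ℝ) (x : V → Fin q) :
    It (al q θ h) (cc G θ h) k F x = ((1 + h • gen G q θ) ^ k *ᵥ F) x := by
  induction k generalizing F x with
  | zero => simp [It]
  | succ k ih =>
    rw [It_succ', ih, pow_succ, ← Matrix.mulVec_mulVec]
    congr 2
    funext y
    exact It_one_eq h F y

/-- the semigroup acting on functions -/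
noncomputable def Pt (G : SimpleGraph V) [DecidableRel G.Adj] (q : ℕ) (θ : ℝ) (t : ℝ)
    (F : (V → Fin q) → ℝ) (x : V → Fin q) : ℝ := ∑ y, law G q θ x t y * F y

section
open scoped Matrix.Norms.Operator

theorem tendsto_pow (hV : Nonempty (V → Fin q)) (t : ℝ) (h : ℕ → ℝ) (m : ℕ → ℕ)
    (hpos : ∀ᶠ i in atTop, 0 < h i)
    (h0 : Tendsto h atTop (𝓝 0)) (hm : Tendsto (fun i => (m i : ℝ) * h i) atTop (𝓝 t)) :
    Tendsto (fun i => (1 + h i • gen G q θ) ^ (m i)) atTop
      (𝓝 (NormedSpace.exp (t • gen G q θ))) :=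
  euler (gen G q θ) t h m hpos h0 hm

theorem law_add (x : V → Fin q) (s t : ℝ) (y : V → Fin q) :
    law G q θ x (s + t) y = ∑ z, law G q θ x s z * law G q θ z t y := by
  unfold law
  rw [add_smul, Matrix.exp_add_of_commute _ _ (by
    exact ((Commute.refl (gen G q θ)).smul_left s).smul_right t), Matrix.mul_apply]

theorem law_zero (x y : V → Fin q) : law G q θ x 0 y = if x = y then 1 else 0 := by
  unfold law
  rw [zero_smul, NormedSpace.exp_zero, Matrix.one_apply]

end

theorem tendsto_It (hV : Nonempty (V → Fin q)) {t : ℝ} {h : ℕ → ℝ} {m : ℕ → ℕ}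
    (hpos : ∀ᶠ i in atTop, 0 < h i)
    (h0 : Tendsto h atTop (𝓝 0)) (hm : Tendsto (fun i => (m i : ℝ) * h i) atTop (𝓝 t))
    {F : ℕ → (V → Fin q) → ℝ} {F' : (V → Fin q) → ℝ}
    (hF : ∀ y, Tendsto (fun i => F i y) atTop (𝓝 (F' y))) (x : V → Fin q) :
    Tendsto (fun i => It (al q θ (h i)) (cc G θ (h i)) (m i) (F i) x) atTop
      (𝓝 (Pt G q θ t F' x)) := by
  simp only [It_eq]
  have h1 := tendsto_pow (G := G) (θ := θ) hV t h m hpos h0 hm
  have h2 : ∀ y, Tendsto (fun i => ((1 + h i • gen G q θ) ^ (m i)) x y) atTop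
      (𝓝 (law G q θ x t y)) := fun y =>
    ((continuous_apply y).tendsto _).comp (((continuous_apply x).tendsto _).comp h1)
  simp only [Matrix.mulVec, dotProduct]
  exact tendsto_finsetSum _ fun y _ => (h2 y).mul (hF y)

end Pool.Agent.helper69.NV
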