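import Pool.Agent.helper69.NV.TV

/-!
Graphs with subexponential growth of balls satisfy the quantitative assumptions.
-/

namespace Pool.Agent.helper69.NV

open Finset Filter Topology

/-- degree bound -/
noncomputable def DD (c₀ : ℝ) : ℝ := max 1 (c₀ * Real.exp 1)

/-- base of the exponential weight -/
noncomputable def LL (θ : ℝ) : ℝ := 1 + θ / (2 * (1 - θ))

/-- bound for the number of vertices at distance `r` -/
noncomputable def bnd (c₀ α : ℝ) (r : ℕ) : ℝ := |c₀| * Real.exp 1 * Real.exp ((r : ℝ) ^ (1 - α))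

/-- sum of the weights -/
noncomputable def TT (c₀ α θ : ℝ) : ℝ := ∑' r : ℕ, bnd c₀ α r * ((LL θ)⁻¹) ^ r

theorem LL_gt {θ : ℝ} (h0 : 0 < θ) (h1 : θ < 1) : 1 < LL θ := by
  unfold LL
  have : 0 < θ / (2 * (1 - θ)) := by
    apply div_pos h0
    linarith
  linarith

theorem summable_bnd (c₀ : ℝ) {α θ : ℝ} (hα : 0 < α) (h0 : 0 < θ) (h1 : θ < 1) :
    Summable fun r : ℕ => bnd c₀ α r * ((LL θ)⁻¹) ^ r := by
  have hL := LL_gt h0 h1
  have hl : 0 < Real.log (LL θ) := Real.log_pos hL
  have hg : Summable fun r : ℕ => (|c₀| * Real.exp 1) * (Real.exp (-(Real.log (LL θ) / 2))) ^ r := by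
    apply Summable.mul_left
    apply summable_geometric_of_lt_one (Real.exp_pos _).le
    rw [Real.exp_lt_one_iff]
    linarith
  refine Summable.of_norm_bounded_eventually_nat hg ?_
  have ht := (tendsto_rpow_neg_atTop hα).comp (tendsto_natCast_atTop_atTop (R := ℝ))
  have he := ht.eventually (gt_mem_nhds (show 0 < Real.log (LL θ) / 2 by positivity))
  filter_upwards [he, eventually_gt_atTop 0] with r hr hr0
  have hr' : (0 : ℝ) < r := by exact_mod_cast hr0
  simp only [Function.comp] at hr
  have e1 : (r : ℝ) ^ (1 - α) = r * (r : ℝ) ^ (-α) := by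
    rw [sub_eq_add_neg, Real.rpow_add hr', Real.rpow_one]
  have e2 : (r : ℝ) ^ (1 - α) ≤ r * (Real.log (LL θ) / 2) := by
    rw [e1]
    exact mul_le_mul_of_nonneg_left hr.le hr'.le
  have e3 : ((LL θ)⁻¹) ^ r = Real.exp (-(r * Real.log (LL θ))) := by
    rw [← Real.exp_log (show 0 < LL θ by linarith), ← Real.exp_neg, ← Real.exp_nat_mul,
      Real.log_exp]
    ring_nf
  have e4 : (Real.exp (-(Real.log (LL θ) / 2))) ^ r = Real.exp (-(r * Real.log (LL θ)) / 2) := by
    rw [← Real.exp_nat_mul]; ring_nf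
  rw [Real.norm_of_nonneg (by unfold bnd; positivity)]
  unfold bnd
  rw [e3, e4, mul_assoc, ← Real.exp_add]
  refine mul_le_mul_of_nonneg_left (Real.exp_le_exp.2 ?_) (by positivity)
  linarith

variable {V : Type} [Fintype V] [DecidableEq V]

theorem cond_of_growth (G : SimpleGraph V) [DecidableRel G.Adj] {q : ℕ} (hq : 1 ≤ q)
    {c₀ α θ : ℝ} (hα0 : 0 < α) (hα1 : α < 1) (h0 : 0 < θ) (h1 : θ < 1)
    (hc : G.Connected) (hG : SubexpBalls G c₀ α) :
    Cond G q θ (DD c₀) (LL θ) (TT c₀ α θ) := by
  have hL := LL_gt h0 h1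
  have hb : ∀ r, 0 ≤ bnd c₀ α r * ((LL θ)⁻¹) ^ r := fun r => by
    unfold bnd
    positivity
  refine ⟨hq, h0, h1, le_max_left _ _, ?_, hL.le, ?_, tsum_nonneg hb, ?_, hc⟩
  · intro v
    have h2 := hG v 1 le_rfl
    rw [Nat.cast_one, Real.one_rpow] at h2
    refine le_trans ?_ (h2.trans (le_max_right _ _))
    rw [← SimpleGraph.card_neighborFinset_eq_degree]
    have : G.neighborFinset v ⊆ Finset.univ.filter fun u => G.dist v u ≤ 1 := by
      intro u hu
      simp only [Finset.mem_filter, Finset.mem_univ, true_and]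
      exact (SimpleGraph.dist_eq_one_iff_adj.2 (by simpa using hu)).le
    exact_mod_cast Finset.card_le_card this
  · unfold LL
    have : 1 - θ ≠ 0 := by linarith
    apply le_of_eq
    field_simp
    ring
  · intro w
    have e1 : ∑ v, ((LL θ) ^ G.dist w v)⁻¹ = ∑ r ∈ Finset.univ.image (fun v => G.dist w v),
        (Finset.univ.filter fun v => G.dist w v = r).card • ((LL θ) ^ r)⁻¹ :=
      Finset.sum_comp (fun r : ℕ => ((LL θ) ^ r)⁻¹) (fun v => G.dist w v)
    rw [e1]
    have e2 : ∀ r : ℕ, ((Finset.univ.filter fun v => G.dist w v = r).card : ℝ) ≤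
        bnd c₀ α r := by
      intro r
      rcases Nat.eq_zero_or_pos r with hr | hr
      · subst hr
        have h2 := hG w 1 le_rfl
        rw [Nat.cast_one, Real.one_rpow] at h2
        have h3 : (Finset.univ.filter fun v => G.dist w v = 0) ⊆
            Finset.univ.filter fun v => G.dist w v ≤ 1 := by
          intro u hu
          simp only [Finset.mem_filter, Finset.mem_univ, true_and] at hu ⊢
          omega
        have h4 : ((Finset.univ.filter fun v => G.dist w v = 0).card : ℝ) ≤
            ((Finset.univ.filter fun v => G.dist w v ≤ 1).card : ℝ) := by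
          exact_mod_cast Finset.card_le_card h3
        unfold bnd
        rw [Nat.cast_zero, Real.zero_rpow (by linarith), Real.exp_zero, mul_one]
        refine h4.trans (h2.trans ?_)
        exact mul_le_mul_of_nonneg_right (le_abs_self _) (Real.exp_pos _).le
      · have h2 := hG w r hr
        have h3 : (Finset.univ.filter fun v => G.dist w v = r) ⊆
            Finset.univ.filter fun v => G.dist w v ≤ r := by
          intro u hu
          simp only [Finset.mem_filter, Finset.mem_univ, true_and] at hu ⊢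
          omega
        have h4 : ((Finset.univ.filter fun v => G.dist w v = r).card : ℝ) ≤
            ((Finset.univ.filter fun v => G.dist w v ≤ r).card : ℝ) := by
          exact_mod_cast Finset.card_le_card h3
        refine h4.trans (h2.trans ?_)
        unfold bnd
        refine mul_le_mul_of_nonneg_right ?_ (Real.exp_pos _).le
        have h5 : (1:ℝ) ≤ Real.exp 1 := Real.one_le_exp (by norm_num)
        have h6 := le_abs_self c₀
        have h7 := abs_nonneg c₀
        nlinarith
    calc ∑ r ∈ Finset.univ.image (fun v => G.dist w v),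
        (Finset.univ.filter fun v => G.dist w v = r).card • ((LL θ) ^ r)⁻¹
        ≤ ∑ r ∈ Finset.univ.image (fun v => G.dist w v), bnd c₀ α r * ((LL θ)⁻¹) ^ r := by
          refine Finset.sum_le_sum fun r _ => ?_
          rw [nsmul_eq_mul, inv_pow]
          exact mul_le_mul_of_nonneg_right (e2 r) (by positivity)
      _ ≤ _ := (summable_bnd c₀ hα0 h0 h1).sum_le_tsum _ (fun r _ => hb r)

theorem exists_time (A : ℝ) {θ ε : ℝ} (hθ : 0 < θ) (hε : 0 < ε) :
    ∃ s : ℝ, 0 ≤ s ∧ 8 * (A * Real.exp (-(θ / 2) * s)) / ε ^ 2 < ε := by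
  have h1 : Tendsto (fun n : ℕ => Real.exp (-(θ / 2) * (n : ℝ))) atTop (𝓝 0) := by
    have h2 : Tendsto (fun n : ℕ => (θ / 2) * (n : ℝ)) atTop atTop :=
      tendsto_natCast_atTop_atTop.const_mul_atTop (by positivity)
    have h3 := Real.tendsto_exp_neg_atTop_nhds_zero.comp h2
    refine h3.congr fun n => ?_
    simp
  have h2 : Tendsto (fun n : ℕ => 8 * (A * Real.exp (-(θ / 2) * (n : ℝ))) / ε ^ 2) atTop
      (𝓝 (8 * (A * 0) / ε ^ 2)) := ((h1.const_mul A).const_mul 8).div_const _
  rw [mul_zero, mul_zero, zero_div] at h2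
  obtain ⟨n, hn⟩ := (h2.eventually (gt_mem_nhds hε)).exists
  exact ⟨n, Nat.cast_nonneg n, hn⟩

end Pool.Agent.helper69.NV
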