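import Pool.Agent.helper69.NV.CS

/-!
Quenched bound on the squared weights: sum over the path of the lineage.
-/

namespace Pool.Agent.helper69.NV

open Finset

variable {V : Type} [Fintype V] [DecidableEq V] {q : ℕ}

/-- killed walk kernel -/
noncomputable def kk (q : ℕ) (α : ℝ) (c : V → V → ℝ) : ℕ → V → V → ℝ
  | 0, u, v => if u = v then 1 else 0
  | k + 1, u, v => (1 - hh q α c u) * kk q α c k u v + ∑ z, c u z * kk q α c k z v

/-- path sums; `some u` records a step during which the path stays at `u`, `none` a jump -/
noncomputable def PS (q : ℕ) (α : ℝ) (c : V → V → ℝ) :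
    ℕ → V → V → (List (Option V) → ℝ) → ℝ
  | 0, u, v, ψ => if u = v then ψ [] else 0
  | k + 1, u, v, ψ => (1 - hh q α c u) * PS q α c k u v (fun P => ψ (some u :: P)) +
      ∑ z, c u z * PS q α c k z v (fun P => ψ (none :: P))

/-- infinitesimal change of the potential -/
noncomputable def RR (q : ℕ) (α : ℝ) (c : V → V → ℝ) (K : ℝ) (u : V) (g : V → ℝ) (y : V) : ℝ :=
  -(hh q α c y) * g y + (K + 2) * c y u + ∑ z, c y z * g z

/-- potential along a path -/
noncomputable def gg (q : ℕ) (α : ℝ) (c : V → V → ℝ) (K : ℝ) : List (Option V) → V → ℝ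
  | [], _ => 0
  | none :: P, y => gg q α c K P y
  | some u :: P, y => (1 + gg q α c K P y) *
      Real.exp (RR q α c K u (gg q α c K P) y /
        ((1 - hh q α c u) * (1 + gg q α c K P y))) - 1

/-- standing assumptions -/
structure Good (q : ℕ) (α : ℝ) (c : V → V → ℝ) (θ h K D : ℝ) (m : V → ℝ) : Prop where
  α_pos : 0 < α
  c_nonneg : ∀ y z, 0 ≤ c y z
  c_self : ∀ y, c y y = 0
  p0_nonneg : 0 ≤ p0 q α c
  noise : q * α = θ * h
  h_pos : 0 < h
  hh_le : ∀ y, hh q α c y ≤ h
  K_nonneg : 0 ≤ K
  c_le : ∀ y z, c y z ≤ K * α
  one_le_m : ∀ y, 1 ≤ m y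
  m_le : ∀ y, m y ≤ D
  rev : ∀ y z, m y * c y z = m z * c z y
  h_le : h ≤ 1 / 2

variable {α : ℝ} {c : V → V → ℝ} {θ h K D : ℝ} {m : V → ℝ}

theorem hh_nonneg (H : Good q α c θ h K D m) (y : V) : 0 ≤ hh q α c y := by
  have := H.α_pos
  have h1 : 0 ≤ ∑ z, c y z := Finset.sum_nonneg fun z _ => H.c_nonneg y z
  unfold hh
  positivity

theorem one_sub_hh (H : Good q α c θ h K D m) (y : V) : 1 / 2 ≤ 1 - hh q α c y := by
  have := H.hh_le y
  have := H.h_le
  linarith

theorem PS_add (k : ℕ) : ∀ (u v : V) (ψ₁ ψ₂ : List (Option V) → ℝ),
    PS q α c k u v (fun P => ψ₁ P + ψ₂ P) = PS q α c k u v ψ₁ + PS q α c k u v ψ₂ := by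
  induction k with
  | zero => intro u v ψ₁ ψ₂; simp only [PS]; split_ifs <;> simp
  | succ k ih =>
    intro u v ψ₁ ψ₂
    simp only [PS]
    rw [ih u v (fun P => ψ₁ (some u :: P)) (fun P => ψ₂ (some u :: P))]
    have : ∀ z, PS q α c k z v (fun P => ψ₁ (none :: P) + ψ₂ (none :: P)) =
        PS q α c k z v (fun P => ψ₁ (none :: P)) + PS q α c k z v (fun P => ψ₂ (none :: P)) :=
      fun z => ih z v (fun P => ψ₁ (none :: P)) (fun P => ψ₂ (none :: P))
    simp only [this, mul_add, Finset.sum_add_distrib]
    ring

theorem PS_smul (k : ℕ) : ∀ (r : ℝ) (u v : V) (ψ : List (Option V) → ℝ),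
    PS q α c k u v (fun P => r * ψ P) = r * PS q α c k u v ψ := by
  induction k with
  | zero => intro r u v ψ; simp only [PS]; split_ifs <;> simp
  | succ k ih =>
    intro r u v ψ
    simp only [PS]
    rw [ih r u v (fun P => ψ (some u :: P))]
    have : ∀ z, PS q α c k z v (fun P => r * ψ (none :: P)) =
        r * PS q α c k z v (fun P => ψ (none :: P)) :=
      fun z => ih r z v (fun P => ψ (none :: P))
    simp only [this, mul_add, Finset.mul_sum]
    congr 1
    · ring
    · exact Finset.sum_congr rfl fun z _ => by ring

theorem PS_sum {ι : Type*} (s : Finset ι) (k : ℕ) (u v : V) (ψ : ι → List (Option V) → ℝ) :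
    PS q α c k u v (fun P => ∑ i ∈ s, ψ i P) = ∑ i ∈ s, PS q α c k u v (ψ i) := by
  classical
  induction s using Finset.induction_on with
  | empty =>
    simp only [Finset.sum_empty]
    have := PS_smul (q := q) (α := α) (c := c) k 0 u v (fun _ => 0)
    simpa using this
  | insert i s hi ih =>
    simp only [Finset.sum_insert hi]
    rw [PS_add k u v (ψ i) (fun P => ∑ i ∈ s, ψ i P), ih]

theorem PS_mono (H : Good q α c θ h K D m) (k : ℕ) : ∀ (u v : V)
    (ψ₁ ψ₂ : List (Option V) → ℝ), (∀ P, ψ₁ P ≤ ψ₂ P) →
    PS q α c k u v ψ₁ ≤ PS q α c k u v ψ₂ := by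
  induction k with
  | zero => intro u v ψ₁ ψ₂ hψ; simp only [PS]; split_ifs; exacts [hψ _, le_rfl]
  | succ k ih =>
    intro u v ψ₁ ψ₂ hψ
    simp only [PS]
    have h1 := one_sub_hh H u
    refine add_le_add (mul_le_mul_of_nonneg_left (ih _ _ _ _ fun P => hψ _) (by linarith))
      (Finset.sum_le_sum fun z _ => mul_le_mul_of_nonneg_left (ih _ _ _ _ fun P => hψ _)
        (H.c_nonneg u z))

theorem PS_one (k : ℕ) : ∀ (u v : V), PS q α c k u v (fun _ => 1) = kk q α c k u v := by
  induction k with
  | zero => intro u v; simp [PS, kk]
  | succ k ih => intro u v; simp only [PS, kk, ih]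

theorem gg_nonneg (H : Good q α c θ h K D m) : ∀ (P : List (Option V)) (y : V),
    0 ≤ gg q α c K P y := by
  intro P
  induction P with
  | nil => intro y; simp [gg]
  | cons o P ih =>
    intro y
    rcases o with _ | u
    · simpa [gg] using ih y
    · simp only [gg]
      set g := gg q α c K P with hg
      have h1 := one_sub_hh H u
      have hy := hh_nonneg H y
      have hyle : hh q α c y ≤ 1 / 2 := (H.hh_le y).trans H.h_le
      have hg0 : 0 ≤ g y := ih y
      have hR : -(hh q α c y) * g y ≤ RR q α c K u g y := by
        unfold RR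
        have e1 : 0 ≤ (K + 2) * c y u := mul_nonneg (by linarith [H.K_nonneg]) (H.c_nonneg _ _)
        have e2 : 0 ≤ ∑ z, c y z * g z :=
          Finset.sum_nonneg fun z _ => mul_nonneg (H.c_nonneg _ _) (ih z)
        linarith
      set t := RR q α c K u g y / ((1 - hh q α c u) * (1 + g y)) with ht
      have hpos : 0 < (1 - hh q α c u) * (1 + g y) := by
        apply mul_pos <;> linarith
      have h2 : (1 + g y) * t = RR q α c K u g y / (1 - hh q α c u) := by
        rw [ht]
        have : (1 + g y) ≠ 0 := by linarith
        have : (1 - hh q α c u) ≠ 0 := by linarith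
        field_simp
      have h3 : - g y ≤ RR q α c K u g y / (1 - hh q α c u) := by
        rw [le_div_iff₀ (by linarith)]
        have : hh q α c y * g y ≤ g y * (1 - hh q α c u) := by nlinarith
        linarith
      have h4 : 1 + t ≤ Real.exp t := by linarith [Real.add_one_le_exp t]
      have h5 : (1 + g y) * (1 + t) ≤ (1 + g y) * Real.exp t :=
        mul_le_mul_of_nonneg_left h4 (by linarith)
      have h6 : (1 + g y) * (1 + t) = 1 + g y + (1 + g y) * t := by ring
      linarith

/-- product over the other alive vertices -/
noncomputable def pr (g : V → ℝ) (B : Finset V) : ℝ := ∏ y ∈ B, (1 + g y)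

omit [Fintype V] [DecidableEq V] in
theorem pr_pos {g : V → ℝ} (hg : ∀ y, 0 ≤ g y) (B : Finset V) : 0 < pr g B :=
  Finset.prod_pos fun y _ => by linarith [hg y]

omit [Fintype V] [DecidableEq V] in
theorem pr_mono {g : V → ℝ} (hg : ∀ y, 0 ≤ g y) {B B' : Finset V} (hB : B ⊆ B') :
    pr g B ≤ pr g B' := by
  unfold pr
  apply Finset.prod_le_prod_of_subset_of_one_le hB
  · intro y _; linarith [hg y]
  · intro y _ _; linarith [hg y]

omit [Fintype V] in
theorem pr_insert_le {g : V → ℝ} (hg : ∀ y, 0 ≤ g y) (z : V) (B : Finset V) :
    pr g (insert z B) ≤ (1 + g z) * pr g B := by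
  by_cases hz : z ∈ B
  · rw [Finset.insert_eq_of_mem hz]
    have := pr_pos hg B
    nlinarith [hg z]
  · unfold pr
    rw [Finset.prod_insert hz]

/-- one-step inequality for the product potential -/
theorem pr_step (H : Good q α c θ h K D m) (u : V) (g : V → ℝ) (hg : ∀ y, 0 ≤ g y)
    (B : Finset V) :
    (1 - hh q α c u) * pr g B + pr g B * ∑ y ∈ B, RR q α c K u g y / (1 + g y) ≤
      (1 - hh q α c u) * ∏ y ∈ B, (1 + g y) *
        Real.exp (RR q α c K u g y / ((1 - hh q α c u) * (1 + g y))) := by
  have h1 := one_sub_hh H u
  have h1' : 0 < 1 - hh q α c u := by linarith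
  rw [Finset.prod_mul_distrib, ← Real.exp_sum]
  have h2 : ∑ y ∈ B, RR q α c K u g y / ((1 - hh q α c u) * (1 + g y)) =
      (∑ y ∈ B, RR q α c K u g y / (1 + g y)) / (1 - hh q α c u) := by
    rw [Finset.sum_div]
    refine Finset.sum_congr rfl fun y _ => ?_
    have : (1 + g y) ≠ 0 := by linarith [hg y]
    field_simp
  rw [h2]
  set S := ∑ y ∈ B, RR q α c K u g y / (1 + g y) with hS
  have h3 : 1 + S / (1 - hh q α c u) ≤ Real.exp (S / (1 - hh q α c u)) := by
    linarith [Real.add_one_le_exp (S / (1 - hh q α c u))]
  have h4 : 0 ≤ (1 - hh q α c u) * pr g B := mul_nonneg h1'.le (pr_pos hg B).le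
  have h5 := mul_le_mul_of_nonneg_left h3 h4
  have h6 : (1 - hh q α c u) * pr g B * (1 + S / (1 - hh q α c u)) =
      (1 - hh q α c u) * pr g B + pr g B * S := by
    field_simp
  calc (1 - hh q α c u) * pr g B + pr g B * S
      = (1 - hh q α c u) * pr g B * (1 + S / (1 - hh q α c u)) := h6.symm
    _ ≤ (1 - hh q α c u) * pr g B * Real.exp (S / (1 - hh q α c u)) := h5
    _ = _ := by unfold pr; ring

/-- quenched bound -/
theorem bb_le_PS (H : Good q α c θ h K D m) (a : Fin q) (k : ℕ) : ∀ (B : Finset V) (u v : V),
    bb α c a k B u v ≤ PS q α c k u v (fun P => pr (gg q α c K P) (B.erase u)) := by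
  induction k with
  | zero =>
    intro B u v
    simp only [bb, PS, gg, pr]
    split_ifs <;> simp
  | succ k ih =>
    intro B u v
    have hα := H.α_pos
    have hK := H.K_nonneg
    -- split the sum over events
    have e0 : bb α c a (k+1) B u v = p0 q α c * bb α c a k B u v +
        ∑ y, (∑ b : Fin q, α * ((rho α c a (some (Sum.inl (y, b))) B u) ^ 2 *
            (if u = y then 0 else bb α c a k (B.erase y) u v)) +
          ∑ z, c y z * ((rho α c a (some (Sum.inr (y, z)) : Ev V q) B u) ^ 2 *
            (if u = y then bb α c a k (nB (some (Sum.inr (y, z)) : Ev V q) B) z v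
              else bb α c a k (nB (some (Sum.inr (y, z)) : Ev V q) B) u v))) := by
      simp only [bb]
      rw [sum_ev, ← Finset.sum_add_distrib]
      congr 1
      · simp [prob, rho, nU, nB]
      · refine Finset.sum_congr rfl fun y _ => ?_
        congr 1
        · refine Finset.sum_congr rfl fun b _ => ?_
          by_cases hu : u = y
          · simp [prob, nU, hu]
          · simp [prob, nU, nB, hu]
        · refine Finset.sum_congr rfl fun z _ => ?_
          by_cases hu : u = y
          · simp [prob, nU, hu]
          · simp [prob, nU, hu]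
    set Dy : V → ℝ := fun y => ∑ b : Fin q, α * ((rho α c a (some (Sum.inl (y, b))) B u) ^ 2 *
            (if u = y then 0 else bb α c a k (B.erase y) u v)) +
          ∑ z, c y z * ((rho α c a (some (Sum.inr (y, z)) : Ev V q) B u) ^ 2 *
            (if u = y then bb α c a k (nB (some (Sum.inr (y, z)) : Ev V q) B) z v
              else bb α c a k (nB (some (Sum.inr (y, z)) : Ev V q) B) u v)) with hDy
    -- own events
    have hown : Dy u ≤ ∑ z, c u z * PS q α c k z v (fun P => pr (gg q α c K P) (B.erase u)) := by
      simp only [hDy, if_true, mul_zero, Finset.sum_const_zero, zero_add]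
      refine Finset.sum_le_sum fun z _ => mul_le_mul_of_nonneg_left ?_ (H.c_nonneg u z)
      have hr : rho α c a (some (Sum.inr (u, z)) : Ev V q) B u = 1 := by simp [rho]
      rw [hr, one_pow, one_mul]
      refine (ih _ _ _).trans (PS_mono H k z v _ _ fun P => ?_)
      refine pr_mono (gg_nonneg H P) ?_
      intro w hw
      simp only [nB] at hw
      rw [Finset.mem_erase] at hw ⊢
      obtain ⟨hwz, hw⟩ := hw
      split_ifs at hw with huB
      · rcases Finset.mem_insert.mp hw with h1 | h1
        · exact absurd h1 hwz
        · exact Finset.mem_erase.mp h1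
      · refine ⟨?_, hw⟩
        rintro rfl
        exact huB hw
    -- other events
    have hoth1 : ∀ y, y ≠ u → y ∉ B → Dy y ≤ PS q α c k u v
        (fun P => hh q α c y * pr (gg q α c K P) (B.erase u)) := by
      intro y hyu hyB
      have : Dy y = hh q α c y * bb α c a k B u v := by
        simp only [hDy, Ne.symm hyu, if_false]
        have r1 : ∀ b : Fin q, rho α c a (some (Sum.inl (y, b))) B u = 1 := by
          intro b; simp [rho, hyB]
        have r2 : ∀ z, rho α c a (some (Sum.inr (y, z)) : Ev V q) B u = 1 := by
          intro z; simp [rho, hyB]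
        have r3 : ∀ z, nB (some (Sum.inr (y, z)) : Ev V q) B = B := by
          intro z; simp [nB, hyB]
        simp only [r1, r2, r3, Finset.erase_eq_of_notMem hyB, one_pow, one_mul,
          Finset.sum_const, Finset.card_univ, Fintype.card_fin, nsmul_eq_mul]
        unfold hh
        rw [← Finset.sum_mul]
        ring
      rw [this, PS_smul]
      exact mul_le_mul_of_nonneg_left (ih B u v) (hh_nonneg H y)
    have hoth2 : ∀ y ∈ B.erase u, Dy y ≤ PS q α c k u v
        (fun P => hh q α c y * pr (gg q α c K P) (B.erase u) + pr (gg q α c K P) (B.erase u) *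
          (RR q α c K u (gg q α c K P) y / (1 + gg q α c K P y))) := by
      intro y hy
      obtain ⟨hyu, hyB⟩ := Finset.mem_erase.mp hy
      -- product without y
      have hprod : ∀ P, pr (gg q α c K P) (B.erase u) =
          (1 + gg q α c K P y) * pr (gg q α c K P) ((B.erase u).erase y) := by
        intro P
        unfold pr
        exact (Finset.mul_prod_erase _ (fun y => 1 + gg q α c K P y) hy).symm
      have hrew : (fun P => hh q α c y * pr (gg q α c K P) (B.erase u) +
          pr (gg q α c K P) (B.erase u) *
          (RR q α c K u (gg q α c K P) y / (1 + gg q α c K P y))) =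
          fun P => (hh q α c y + (K + 2) * c y u) * pr (gg q α c K P) ((B.erase u).erase y) +
            ∑ z, c y z * (gg q α c K P z * pr (gg q α c K P) ((B.erase u).erase y)) := by
        funext P
        rw [hprod P]
        have h1 : (1 + gg q α c K P y) ≠ 0 := by linarith [gg_nonneg H P y]
        have h2 : ∑ z, c y z * (gg q α c K P z * pr (gg q α c K P) ((B.erase u).erase y)) =
            (∑ z, c y z * gg q α c K P z) * pr (gg q α c K P) ((B.erase u).erase y) := by
          rw [Finset.sum_mul]
          exact Finset.sum_congr rfl fun z _ => by ring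
        rw [h2]
        unfold RR
        field_simp
        ring
      rw [hrew, PS_add, PS_smul, PS_sum]
      have hsm : ∀ z, PS q α c k u v (fun P => c y z * (gg q α c K P z *
          pr (gg q α c K P) ((B.erase u).erase y))) = c y z * PS q α c k u v
            (fun P => gg q α c K P z * pr (gg q α c K P) ((B.erase u).erase y)) :=
        fun z => PS_smul _ _ _ _ _
      simp only [hsm]
      set X := PS q α c k u v (fun P => pr (gg q α c K P) ((B.erase u).erase y)) with hX
      have hXb : bb α c a k (B.erase y) u v ≤ X := by
        refine (ih _ _ _).trans (le_of_eq ?_)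
        rw [hX]
        congr 1
        funext P
        rw [Finset.erase_right_comm]
      have hb0 : 0 ≤ bb α c a k (B.erase y) u v :=
        bb_nonneg hα.le H.c_nonneg H.p0_nonneg a k _ _ _
      have hX0 : 0 ≤ X := hb0.trans hXb
      -- noise part
      have hnoise : ∑ b : Fin q, α * ((rho α c a (some (Sum.inl (y, b))) B u) ^ 2 *
            (if u = y then 0 else bb α c a k (B.erase y) u v)) ≤
            (q * α + (K + 2) * c y u) * X := by
        simp only [Ne.symm hyu, if_false]
        have r1 : ∀ b : Fin q, α * ((rho α c a (some (Sum.inl (y, b))) B u) ^ 2 *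
            bb α c a k (B.erase y) u v) = (α + (if b = a then c y u * (c y u / α + 2) else 0)) *
            bb α c a k (B.erase y) u v := by
          intro b
          simp only [rho, hyB, ne_eq, hyu, not_false_eq_true, and_true]
          split_ifs
          · field_simp
            ring
          · ring
        rw [Finset.sum_congr rfl fun b _ => r1 b, ← Finset.sum_mul, Finset.sum_add_distrib,
          Finset.sum_ite_eq' Finset.univ a]
        simp only [Finset.mem_univ, if_true, Finset.sum_const, Finset.card_univ,
          Fintype.card_fin, nsmul_eq_mul]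
        have h1 : c y u / α ≤ K := by
          rw [div_le_iff₀ hα]; exact H.c_le y u
        have h2 : c y u * (c y u / α + 2) ≤ (K + 2) * c y u := by
          have := H.c_nonneg y u
          nlinarith
        have h3 : 0 ≤ q * α + (K + 2) * c y u := by
          have := H.c_nonneg y u
          positivity
        calc (q * α + c y u * (c y u / α + 2)) * bb α c a k (B.erase y) u v
            ≤ (q * α + (K + 2) * c y u) * bb α c a k (B.erase y) u v :=
              mul_le_mul_of_nonneg_right (by linarith) hb0
          _ ≤ _ := mul_le_mul_of_nonneg_left hXb h3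
      -- copy part
      have hcopy : ∀ z, c y z * ((rho α c a (some (Sum.inr (y, z)) : Ev V q) B u) ^ 2 *
            (if u = y then bb α c a k (nB (some (Sum.inr (y, z)) : Ev V q) B) z v
              else bb α c a k (nB (some (Sum.inr (y, z)) : Ev V q) B) u v)) ≤
          c y z * X + c y z * PS q α c k u v
            (fun P => gg q α c K P z * pr (gg q α c K P) ((B.erase u).erase y)) := by
        intro z
        simp only [Ne.symm hyu, if_false]
        rw [← mul_add]
        refine mul_le_mul_of_nonneg_left ?_ (H.c_nonneg y z)
        have hb1 : 0 ≤ bb α c a k (nB (some (Sum.inr (y, z)) : Ev V q) B) u v :=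
          bb_nonneg hα.le H.c_nonneg H.p0_nonneg a k _ _ _
        have h1 : (rho α c a (some (Sum.inr (y, z)) : Ev V q) B u) ^ 2 ≤ 1 := by
          simp only [rho]; split_ifs <;> norm_num
        have h2 : (rho α c a (some (Sum.inr (y, z)) : Ev V q) B u) ^ 2 *
            bb α c a k (nB (some (Sum.inr (y, z)) : Ev V q) B) u v ≤
            bb α c a k (nB (some (Sum.inr (y, z)) : Ev V q) B) u v := by
          nlinarith
        refine h2.trans ((ih _ _ _).trans ?_)
        rw [hX, ← PS_add]
        refine PS_mono H k u v _ _ fun P => ?_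
        have h3 : (nB (some (Sum.inr (y, z)) : Ev V q) B).erase u ⊆
            insert z ((B.erase u).erase y) := by
          intro w hw
          simp only [nB, hyB, if_true, Finset.mem_erase, Finset.mem_insert] at hw ⊢
          tauto
        refine (pr_mono (gg_nonneg H P) h3).trans ((pr_insert_le (gg_nonneg H P) _ _).trans
          (le_of_eq ?_))
        ring
      calc Dy y ≤ (q * α + (K + 2) * c y u) * X + ∑ z, (c y z * X + c y z * PS q α c k u v
            (fun P => gg q α c K P z * pr (gg q α c K P) ((B.erase u).erase y))) :=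
            add_le_add hnoise (Finset.sum_le_sum fun z _ => hcopy z)
        _ = _ := by
          rw [Finset.sum_add_distrib, ← Finset.sum_mul]
          unfold hh
          ring
    -- assembly
    have hall : ∀ y ∈ Finset.univ.erase u, Dy y ≤ PS q α c k u v
        (fun P => hh q α c y * pr (gg q α c K P) (B.erase u) + (if y ∈ B.erase u then
          pr (gg q α c K P) (B.erase u) *
          (RR q α c K u (gg q α c K P) y / (1 + gg q α c K P y)) else 0)) := by
      intro y hy
      have hyu : y ≠ u := (Finset.mem_erase.mp hy).1
      by_cases hyB : y ∈ B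
      · have : y ∈ B.erase u := Finset.mem_erase.mpr ⟨hyu, hyB⟩
        simp only [this, if_true]
        exact hoth2 y this
      · have : y ∉ B.erase u := fun h => hyB (Finset.mem_erase.mp h).2
        simp only [this, if_false, add_zero]
        exact hoth1 y hyu hyB
    have hsum : ∑ y, Dy y = Dy u + ∑ y ∈ Finset.univ.erase u, Dy y :=
      (Finset.add_sum_erase _ _ (Finset.mem_univ u)).symm
    rw [e0, hsum]
    have hrest : p0 q α c * bb α c a k B u v + ∑ y ∈ Finset.univ.erase u, Dy y ≤
        (1 - hh q α c u) * PS q α c k u v
          (fun P => pr (gg q α c K (some u :: P)) (B.erase u)) := by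
      calc p0 q α c * bb α c a k B u v + ∑ y ∈ Finset.univ.erase u, Dy y
          ≤ p0 q α c * PS q α c k u v (fun P => pr (gg q α c K P) (B.erase u)) +
            ∑ y ∈ Finset.univ.erase u, PS q α c k u v
            (fun P => hh q α c y * pr (gg q α c K P) (B.erase u) + (if y ∈ B.erase u then
              pr (gg q α c K P) (B.erase u) *
              (RR q α c K u (gg q α c K P) y / (1 + gg q α c K P y)) else 0)) :=
            add_le_add (mul_le_mul_of_nonneg_left (ih B u v) H.p0_nonneg)
              (Finset.sum_le_sum hall)
        _ = PS q α c k u v (fun P => p0 q α c * pr (gg q α c K P) (B.erase u) +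
              ∑ y ∈ Finset.univ.erase u, (hh q α c y * pr (gg q α c K P) (B.erase u) +
              (if y ∈ B.erase u then pr (gg q α c K P) (B.erase u) *
              (RR q α c K u (gg q α c K P) y / (1 + gg q α c K P y)) else 0))) := by
            rw [PS_add, PS_smul, PS_sum]
        _ ≤ PS q α c k u v (fun P => (1 - hh q α c u) *
              pr (gg q α c K (some u :: P)) (B.erase u)) := by
            refine PS_mono H k u v _ _ fun P => ?_
            set g := gg q α c K P with hg
            have h1 : ∑ y ∈ Finset.univ.erase u, (hh q α c y * pr g (B.erase u) +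
                (if y ∈ B.erase u then pr g (B.erase u) *
                (RR q α c K u g y / (1 + g y)) else 0)) =
                (∑ y ∈ Finset.univ.erase u, hh q α c y) * pr g (B.erase u) +
                pr g (B.erase u) * ∑ y ∈ B.erase u, RR q α c K u g y / (1 + g y) := by
              rw [Finset.sum_add_distrib, ← Finset.sum_mul, ← Finset.sum_filter,
                Finset.mul_sum]
              congr 2
              ext y
              simp
            rw [h1]
            have h2 : p0 q α c + ∑ y ∈ Finset.univ.erase u, hh q α c y = 1 - hh q α c u := by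
              unfold p0
              rw [← Finset.add_sum_erase _ _ (Finset.mem_univ u)]
              ring
            have h3 := pr_step H u g (gg_nonneg H P) (B.erase u)
            have h4 : pr (gg q α c K (some u :: P)) (B.erase u) =
                ∏ y ∈ B.erase u, (1 + g y) *
                Real.exp (RR q α c K u g y / ((1 - hh q α c u) * (1 + g y))) := by
              unfold pr
              refine Finset.prod_congr rfl fun y _ => ?_
              simp only [gg, hg]
              ring
            rw [h4]
            calc p0 q α c * pr g (B.erase u) + ((∑ y ∈ Finset.univ.erase u, hh q α c y) *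
                  pr g (B.erase u) +
                  pr g (B.erase u) * ∑ y ∈ B.erase u, RR q α c K u g y / (1 + g y))
                = (p0 q α c + ∑ y ∈ Finset.univ.erase u, hh q α c y) * pr g (B.erase u) +
                  pr g (B.erase u) * ∑ y ∈ B.erase u, RR q α c K u g y / (1 + g y) := by ring
              _ ≤ _ := by rw [h2]; exact h3
        _ = _ := PS_smul _ _ _ _ _
    simp only [PS]
    have hown' : Dy u ≤ ∑ z, c u z * PS q α c k z v
        (fun P => pr (gg q α c K (none :: P)) (B.erase u)) := by
      refine hown.trans (le_of_eq ?_)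
      rfl
    linarith

end Pool.Agent.helper69.NV
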