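import Pool.Agent.helper69.NV.Path

/-!
Uniform bound for the potential.
-/

namespace Pool.Agent.helper69.NV

open Finset

variable {V : Type} [Fintype V] [DecidableEq V] {q : ℕ}
variable {α : ℝ} {c : V → V → ℝ} {θ h K D : ℝ} {m : V → ℝ}

/-- smallness assumptions on the step -/
structure Small (θ h K D S0 : ℝ) : Prop where
  θ_pos : 0 < θ
  θ_le : θ ≤ 1
  S0_eq : θ * S0 = (K + 2) * D + 1
  S0_nonneg : 0 ≤ S0
  D_nonneg : 0 ≤ D
  sm1 : 2 * h * (K + 2 + S0) ≤ 1
  sm2 : h * (4 * (S0 + (K + 2 + S0) * ((K + 2) * D + S0))) ≤ 1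

theorem sum_c_le (H : Good q α c θ h K D m) (u : V) : ∑ z, c u z ≤ h := by
  have h1 := H.hh_le u
  unfold hh at h1
  have := H.α_pos
  have : 0 ≤ (q : ℝ) * α := by positivity
  linarith

theorem le_sum_m (H : Good q α c θ h K D m) {g : V → ℝ} (hg : ∀ y, 0 ≤ g y) (z : V) :
    g z ≤ ∑ y, m y * g y := by
  have h1 : m z * g z ≤ ∑ y, m y * g y :=
    Finset.single_le_sum (f := fun y => m y * g y)
      (fun y _ => mul_nonneg (by linarith [H.one_le_m y]) (hg y)) (Finset.mem_univ z)
  nlinarith [H.one_le_m z, hg z]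

theorem quad_aux {g R A hy h B : ℝ} (hg : 0 ≤ g) (hR : R = -hy * g + A) (hy0 : 0 ≤ hy)
    (hyh : hy ≤ h) (hA0 : 0 ≤ A) (hA1 : A ≤ h * B) (hh : 0 < h) :
    R ^ 2 ≤ (1 + g) * (h ^ 2 * g + h * B * A) := by
  have hyg : 0 ≤ hy * g := mul_nonneg hy0 hg
  have hB0 : 0 ≤ h * B * A := mul_nonneg (hA0.trans hA1) hA0
  have h2g : 0 ≤ h ^ 2 * g := by positivity
  have hX : 0 ≤ h ^ 2 * g + h * B * A := by linarith
  have hX1 : h ^ 2 * g + h * B * A ≤ (1 + g) * (h ^ 2 * g + h * B * A) := by
    have : 0 ≤ g * (h ^ 2 * g + h * B * A) := mul_nonneg hg hX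
    linarith
  by_cases hRs : 0 ≤ R
  · have e1 : R ≤ A := by rw [hR]; linarith
    have e2 : R * R ≤ A * A := mul_self_le_mul_self hRs e1
    have e3 : A * A ≤ h * B * A := mul_le_mul_of_nonneg_right hA1 hA0
    have e5 : R ^ 2 = R * R := sq R
    linarith
  · push Not at hRs
    have e0 : hy * g ≤ h * g := mul_le_mul_of_nonneg_right hyh hg
    have e1 : -R ≤ h * g := by rw [hR]; linarith
    have e2 : (-R) * (-R) ≤ (h * g) * (h * g) := mul_self_le_mul_self (by linarith) e1
    have e3 : (h * g) * (h * g) = g * (h ^ 2 * g) := by ring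
    have e4 : (1 + g) * (h ^ 2 * g + h * B * A) = g * (h ^ 2 * g) + (h ^ 2 * g + h * B * A +
      g * (h * B * A)) := by ring
    have e6 : 0 ≤ g * (h * B * A) := mul_nonneg hg hB0
    have e5 : R ^ 2 = (-R) * (-R) := by ring
    linarith

theorem step_vertex (H : Good q α c θ h K D m) {S0 : ℝ} (hs : Small θ h K D S0) (u : V)
    {g : V → ℝ} (hg : ∀ y, 0 ≤ g y) (hS : ∑ y, m y * g y ≤ S0) (y : V) :
    (1 + g y) * Real.exp (RR q α c K u g y / ((1 - hh q α c u) * (1 + g y))) - 1 ≤
      g y + RR q α c K u g y / (1 - hh q α c u) +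
        4 * (h ^ 2 * g y + h * (K + 2 + S0) * ((K + 2) * c y u + ∑ z, c y z * g z)) := by
  have hK := H.K_nonneg
  have hh0 := H.h_pos
  have h1 := one_sub_hh H u
  have h1' : 0 < 1 - hh q α c u := by linarith
  have hy0 := hh_nonneg H y
  have hyh := H.hh_le y
  have hg0 := hg y
  set A := (K + 2) * c y u + ∑ z, c y z * g z with hA
  have hR : RR q α c K u g y = -(hh q α c y) * g y + A := by rw [hA]; unfold RR; ring
  have hs0 : 0 ≤ ∑ z, c y z * g z :=
    Finset.sum_nonneg fun z _ => mul_nonneg (H.c_nonneg _ _) (hg z)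
  have hA0 : 0 ≤ A := by
    have := H.c_nonneg y u
    positivity
  have hcy : c y u ≤ h := by
    refine le_trans ?_ (sum_c_le H y)
    exact Finset.single_le_sum (f := fun z => c y z) (fun z _ => H.c_nonneg y z)
      (Finset.mem_univ u)
  have hA1 : A ≤ h * (K + 2 + S0) := by
    have e1 : ∑ z, c y z * g z ≤ ∑ z, c y z * S0 :=
      Finset.sum_le_sum fun z _ => mul_le_mul_of_nonneg_left ((le_sum_m H hg z).trans hS)
        (H.c_nonneg _ _)
    rw [← Finset.sum_mul] at e1
    have e2 := sum_c_le H y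
    have e3 := hs.S0_nonneg
    nlinarith
  set R := RR q α c K u g y with hRdef
  set t := R / ((1 - hh q α c u) * (1 + g y)) with ht
  have hpos : 0 < (1 - hh q α c u) * (1 + g y) := by apply mul_pos <;> linarith
  have hhalf : (1 + g y) / 2 ≤ (1 - hh q α c u) * (1 + g y) := by nlinarith
  have ht1 : |t| ≤ 1 := by
    rw [ht, abs_le]
    constructor
    · rw [le_div_iff₀ hpos, hR]
      have : hh q α c y * g y ≤ (1 / 2) * g y := mul_le_mul_of_nonneg_right
        (hyh.trans H.h_le) hg0
      nlinarith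
    · rw [div_le_iff₀ hpos, hR]
      have h3 := hs.sm1
      have : 0 ≤ hh q α c y * g y := mul_nonneg hy0 hg0
      nlinarith
  have hexp : Real.exp t ≤ 1 + t + t ^ 2 := by
    have := Real.abs_exp_sub_one_sub_id_le ht1
    have := (abs_le.mp this).2
    linarith
  have hlin : (1 + g y) * t = R / (1 - hh q α c u) := by
    rw [ht]
    have : (1 + g y) ≠ 0 := by linarith
    have : (1 - hh q α c u) ≠ 0 := by linarith
    field_simp
  have hR2 : R ^ 2 ≤ (1 + g y) * (h ^ 2 * g y + h * (K + 2 + S0) * A) :=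
    quad_aux hg0 hR hy0 hyh hA0 hA1 hh0
  have hquad : (1 + g y) * t ^ 2 ≤ 4 * (h ^ 2 * g y + h * (K + 2 + S0) * A) := by
    have e1 : (1 + g y) * t ^ 2 = R ^ 2 / ((1 - hh q α c u) ^ 2 * (1 + g y)) := by
      rw [ht]
      have : (1 + g y) ≠ 0 := by linarith
      have : (1 - hh q α c u) ≠ 0 := by linarith
      field_simp
    rw [e1, div_le_iff₀ (by positivity)]
    have e2 : 1 / 4 ≤ (1 - hh q α c u) ^ 2 := by nlinarith
    have e3 : 0 ≤ (1 + g y) * (h ^ 2 * g y + h * (K + 2 + S0) * A) := (sq_nonneg R).trans hR2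
    have e4 := mul_le_mul_of_nonneg_right e2 e3
    have e5 : 4 * (h ^ 2 * g y + h * (K + 2 + S0) * A) * ((1 - hh q α c u) ^ 2 * (1 + g y)) =
      4 * ((1 - hh q α c u) ^ 2 * ((1 + g y) * (h ^ 2 * g y + h * (K + 2 + S0) * A))) := by ring
    rw [e5]
    linarith
  calc (1 + g y) * Real.exp t - 1 ≤ (1 + g y) * (1 + t + t ^ 2) - 1 := by
        have := mul_le_mul_of_nonneg_left hexp (by linarith : 0 ≤ 1 + g y)
        linarith
    _ = g y + (1 + g y) * t + (1 + g y) * t ^ 2 := by ring
    _ ≤ _ := by rw [hlin]; linarith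

theorem sum_mc (H : Good q α c θ h K D m) (u : V) :
    ∑ y, m y * c y u = m u * ∑ y, c u y := by
  rw [Finset.mul_sum]
  exact Finset.sum_congr rfl fun y _ => H.rev y u

theorem sum_mcg (H : Good q α c θ h K D m) (g : V → ℝ) :
    ∑ y, m y * ∑ z, c y z * g z = ∑ z, m z * g z * (hh q α c z - q * α) := by
  simp only [Finset.mul_sum]
  rw [Finset.sum_comm]
  refine Finset.sum_congr rfl fun z _ => ?_
  have : ∑ y, m y * (c y z * g z) = (∑ y, m y * c y z) * g z := by
    rw [Finset.sum_mul]
    exact Finset.sum_congr rfl fun y _ => by ring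
  rw [this, sum_mc H z]
  unfold hh
  ring

theorem gg_sum_le (H : Good q α c θ h K D m) {S0 : ℝ} (hs : Small θ h K D S0) :
    ∀ P : List (Option V), ∑ y, m y * gg q α c K P y ≤ S0 := by
  intro P
  induction P with
  | nil => simp [gg, hs.S0_nonneg]
  | cons o P ih =>
    rcases o with _ | u
    · simpa [gg] using ih
    · simp only [gg]
      have hg : ∀ y, 0 ≤ gg q α c K P y := gg_nonneg H P
      set g := gg q α c K P with hgdef
      set S := ∑ y, m y * g y with hSdef
      have hK := H.K_nonneg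
      have hh0 := H.h_pos
      have hθ := hs.θ_pos
      have hS00 := hs.S0_nonneg
      have hD := hs.D_nonneg
      have h1 := one_sub_hh H u
      have h1' : 0 < 1 - hh q α c u := by linarith
      have hu0 := hh_nonneg H u
      have hS0' : 0 ≤ S := Finset.sum_nonneg fun y _ =>
        mul_nonneg (by linarith [H.one_le_m y]) (hg y)
      have step : ∑ y, m y * ((1 + g y) *
          Real.exp (RR q α c K u g y / ((1 - hh q α c u) * (1 + g y))) - 1) ≤
          ∑ y, m y * (g y + RR q α c K u g y / (1 - hh q α c u) +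
          4 * (h ^ 2 * g y + h * (K + 2 + S0) * ((K + 2) * c y u + ∑ z, c y z * g z))) :=
        Finset.sum_le_sum fun y _ => mul_le_mul_of_nonneg_left
          (step_vertex H hs u hg ih y) (by linarith [H.one_le_m y])
      refine step.trans ?_
      have hmR : ∑ y, m y * RR q α c K u g y = (K + 2) * (m u * ∑ z, c u z) - q * α * S := by
        have e1 : ∀ y, m y * RR q α c K u g y = -(m y * g y * hh q α c y) +
            (K + 2) * (m y * c y u) + m y * ∑ z, c y z * g z := by
          intro y; unfold RR; ring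
        rw [Finset.sum_congr rfl fun y _ => e1 y, Finset.sum_add_distrib,
          Finset.sum_add_distrib, ← Finset.mul_sum, sum_mc H u, sum_mcg H g,
          Finset.sum_neg_distrib]
        have e2 : ∑ z, m z * g z * (hh q α c z - q * α) =
            ∑ z, m z * g z * hh q α c z - q * α * S := by
          rw [hSdef, Finset.mul_sum, ← Finset.sum_sub_distrib]
          exact Finset.sum_congr rfl fun z _ => by ring
        rw [e2]
        ring
      have hmA : ∑ y, m y * ((K + 2) * c y u + ∑ z, c y z * g z) ≤ (K + 2) * (D * h) + h * S := by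
        have e1 : ∀ y, m y * ((K + 2) * c y u + ∑ z, c y z * g z) =
            (K + 2) * (m y * c y u) + m y * ∑ z, c y z * g z := by intro y; ring
        rw [Finset.sum_congr rfl fun y _ => e1 y, Finset.sum_add_distrib, ← Finset.mul_sum,
          sum_mc H u, sum_mcg H g]
        have e2 : m u * ∑ z, c u z ≤ D * h := by
          have := H.m_le u
          have := H.one_le_m u
          have := sum_c_le H u
          have e5 : 0 ≤ ∑ z, c u z := Finset.sum_nonneg fun z _ => H.c_nonneg u z
          nlinarith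
        have e3 : ∑ z, m z * g z * (hh q α c z - q * α) ≤ h * S := by
          rw [hSdef, Finset.mul_sum]
          refine Finset.sum_le_sum fun z _ => ?_
          have e6 : 0 ≤ m z * g z := mul_nonneg (by linarith [H.one_le_m z]) (hg z)
          have e7 : hh q α c z - q * α ≤ h := by
            have := H.hh_le z
            have := H.α_pos
            have : 0 ≤ (q : ℝ) * α := by positivity
            linarith
          nlinarith
        have e4 : (K + 2) * (m u * ∑ z, c u z) ≤ (K + 2) * (D * h) :=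
          mul_le_mul_of_nonneg_left e2 (by linarith)
        linarith
      have hmR2 : ∑ y, m y * RR q α c K u g y ≤ (K + 2) * (D * h) - θ * h * S := by
        rw [hmR, H.noise]
        have e2 : m u * ∑ z, c u z ≤ D * h := by
          have := H.m_le u
          have := H.one_le_m u
          have := sum_c_le H u
          have e5 : 0 ≤ ∑ z, c u z := Finset.sum_nonneg fun z _ => H.c_nonneg u z
          nlinarith
        have e4 : (K + 2) * (m u * ∑ z, c u z) ≤ (K + 2) * (D * h) :=
          mul_le_mul_of_nonneg_left e2 (by linarith)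
        linarith
      have hexpand : ∑ y, m y * (g y + RR q α c K u g y / (1 - hh q α c u) +
          4 * (h ^ 2 * g y + h * (K + 2 + S0) * ((K + 2) * c y u + ∑ z, c y z * g z))) =
          S + (∑ y, m y * RR q α c K u g y) / (1 - hh q α c u) + 4 * (h ^ 2 * S +
            h * (K + 2 + S0) * ∑ y, m y * ((K + 2) * c y u + ∑ z, c y z * g z)) := by
        have e1 : 4 * (h ^ 2 * S +
            h * (K + 2 + S0) * ∑ y, m y * ((K + 2) * c y u + ∑ z, c y z * g z)) =
            ∑ y, (4 * (h ^ 2 * (m y * g y)) + 4 * (h * (K + 2 + S0) *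
              (m y * ((K + 2) * c y u + ∑ z, c y z * g z)))) := by
          rw [Finset.sum_add_distrib, ← Finset.mul_sum, ← Finset.mul_sum, ← Finset.mul_sum,
            ← Finset.mul_sum, ← hSdef]
          ring
        rw [e1, Finset.sum_div, hSdef, ← Finset.sum_add_distrib, ← Finset.sum_add_distrib]
        exact Finset.sum_congr rfl fun y _ => by ring
      rw [hexpand]
      -- numeric part
      have n1 : (∑ y, m y * RR q α c K u g y) / (1 - hh q α c u) ≤
          (θ * h * (S0 - S) - h) / (1 - hh q α c u) := by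
        apply div_le_div_of_nonneg_right _ h1'.le
        have := hs.S0_eq
        nlinarith
      have n2 : (θ * h * (S0 - S) - h) / (1 - hh q α c u) ≤ (S0 - S) - h := by
        rw [div_le_iff₀ h1']
        have hx : 0 ≤ S0 - S := by linarith
        have e1 : θ * h ≤ 1 - hh q α c u := by
          have := hs.θ_le
          have := H.h_le
          nlinarith
        have e2 : θ * h * (S0 - S) ≤ (1 - hh q α c u) * (S0 - S) :=
          mul_le_mul_of_nonneg_right e1 hx
        nlinarith
      have n3 : 4 * (h ^ 2 * S + h * (K + 2 + S0) *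
          ∑ y, m y * ((K + 2) * c y u + ∑ z, c y z * g z)) ≤
          h * (h * (4 * (S0 + (K + 2 + S0) * ((K + 2) * D + S0)))) := by
        have e1 : h * (K + 2 + S0) * ∑ y, m y * ((K + 2) * c y u + ∑ z, c y z * g z) ≤
            h * (K + 2 + S0) * ((K + 2) * (D * h) + h * S0) := by
          apply mul_le_mul_of_nonneg_left _ (by positivity)
          refine hmA.trans ?_
          nlinarith
        have e2 : h ^ 2 * S ≤ h ^ 2 * S0 := mul_le_mul_of_nonneg_left ih (by positivity)
        nlinarith
      have n4 : h * (h * (4 * (S0 + (K + 2 + S0) * ((K + 2) * D + S0)))) ≤ h * 1 :=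
        mul_le_mul_of_nonneg_left hs.sm2 hh0.le
      linarith

theorem pr_le_exp (H : Good q α c θ h K D m) {g : V → ℝ} (hg : ∀ y, 0 ≤ g y) (B : Finset V) :
    pr g B ≤ Real.exp (∑ y, m y * g y) := by
  unfold pr
  calc ∏ y ∈ B, (1 + g y) ≤ ∏ y ∈ B, Real.exp (g y) :=
        Finset.prod_le_prod (fun y _ => by linarith [hg y])
          (fun y _ => by linarith [Real.add_one_le_exp (g y)])
    _ = Real.exp (∑ y ∈ B, g y) := (Real.exp_sum _ _).symm
    _ ≤ _ := by
        apply Real.exp_le_exp.mpr
        calc ∑ y ∈ B, g y ≤ ∑ y, g y :=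
              Finset.sum_le_sum_of_subset_of_nonneg (Finset.subset_univ _) fun y _ _ => hg y
          _ ≤ _ := Finset.sum_le_sum fun y _ => by nlinarith [hg y, H.one_le_m y]

/-- main bound on the weights -/
theorem bb_le (H : Good q α c θ h K D m) {S0 : ℝ} (hs : Small θ h K D S0) (a : Fin q) (k : ℕ)
    (B : Finset V) (u v : V) : bb α c a k B u v ≤ Real.exp S0 * kk q α c k u v := by
  refine (bb_le_PS H a k B u v).trans ?_
  rw [← PS_one, ← PS_smul]
  refine PS_mono H k u v _ _ fun P => ?_
  rw [mul_one]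
  exact (pr_le_exp H (gg_nonneg H P) _).trans (Real.exp_le_exp.mpr (gg_sum_le H hs P))

end Pool.Agent.helper69.NV
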