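import Pool.Agent.helper69.NV.Cont

/-!
Inequalities for the continuous time semigroup.
-/

namespace Pool.Agent.helper69.NV

open Finset Filter Topology Matrix

variable {V : Type} [Fintype V] [DecidableEq V] {G : SimpleGraph V} [DecidableRel G.Adj]
  {q : ℕ} {θ : ℝ}

/-- quantitative assumptions on the graph -/
structure Cond (G : SimpleGraph V) [DecidableRel G.Adj] (q : ℕ) (θ D L T : ℝ) : Prop where
  q_pos : 1 ≤ q
  θ_pos : 0 < θ
  θ_lt : θ < 1
  one_le_D : 1 ≤ D
  deg_le : ∀ v, (G.degree v : ℝ) ≤ D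
  one_le : 1 ≤ L
  small : (L - 1) * (1 - θ) ≤ θ / 2
  T_nonneg : 0 ≤ T
  row : ∀ w, ∑ v, (L ^ G.dist w v)⁻¹ ≤ T
  conn : G.Connected

variable {D L T : ℝ}

theorem sum_cc (v : V) (h : ℝ) : ∑ z, cc G θ h v z =
    if G.degree v = 0 then 0 else h * (1 - θ) := by
  have e2 : ∑ z, cc G θ h v z = ∑ z ∈ G.neighborFinset v, h * (1 - θ) / G.degree v := by
    unfold cc
    rw [← Finset.sum_filter]
    refine Finset.sum_congr ?_ fun _ _ => rfl
    ext u; simp
  rw [e2, Finset.sum_const, SimpleGraph.card_neighborFinset_eq_degree, nsmul_eq_mul]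
  split_ifs with h0
  · rw [h0]; simp
  · have : (G.degree v : ℝ) ≠ 0 := by exact_mod_cast h0
    field_simp

theorem hh_cc_le (H : Cond G q θ D L T) {h : ℝ} (hh0 : 0 ≤ h) (v : V) :
    hh q (al q θ h) (cc G θ h) v ≤ h := by
  unfold hh
  rw [sum_cc]
  have hq : (q : ℝ) ≠ 0 := by
    have := H.q_pos
    have : 0 < q := this
    exact_mod_cast this.ne'
  have e1 : (q : ℝ) * al q θ h = θ * h := by unfold al; field_simp
  rw [e1]
  have h1 := H.θ_lt
  have h2 := H.θ_pos
  split_ifs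
  · nlinarith
  · nlinarith

theorem good (H : Cond G q θ D L T) {h : ℝ} (h0 : 0 < h) (h1 : h ≤ 1 / 2)
    (h2 : (Fintype.card V : ℝ) * h ≤ 1 / 2) :
    Good q (al q θ h) (cc G θ h) θ h (q / θ) D (fun v => max (G.degree v : ℝ) 1) := by
  have hq : (0 : ℝ) < q := by
    have := H.q_pos
    have : 0 < q := this
    exact_mod_cast this
  have hθ := H.θ_pos
  have hθ' := H.θ_lt
  refine ⟨?_, ?_, ?_, ?_, ?_, h0, hh_cc_le H h0.le, ?_, ?_, ?_, ?_, ?_, h1⟩
  · unfold al; positivity
  · intro y z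
    unfold cc
    split_ifs
    · exact div_nonneg (mul_nonneg h0.le (by linarith)) (by positivity)
    · exact le_rfl
  · intro y
    simp [cc]
  · unfold p0
    have : ∑ y, hh q (al q θ h) (cc G θ h) y ≤ ∑ _y : V, h :=
      Finset.sum_le_sum fun y _ => hh_cc_le H h0.le y
    rw [Finset.sum_const, Finset.card_univ, nsmul_eq_mul] at this
    linarith
  · unfold al; field_simp
  · positivity
  · intro y z
    unfold cc al
    have e1 : (q : ℝ) / θ * (θ * h / q) = h := by field_simp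
    rw [e1]
    split_ifs with hyz
    · have : (1 : ℝ) ≤ G.degree y := by
        have : 0 < G.degree y := by
          rw [G.degree_pos_iff_exists_adj]
          exact ⟨z, hyz⟩
        exact_mod_cast this
      rw [div_le_iff₀ (by linarith)]
      nlinarith
    · exact h0.le
  · intro y; exact le_max_right _ _
  · intro y; exact max_le (H.deg_le y) H.one_le_D
  · intro y z
    unfold cc
    by_cases hyz : G.Adj y z
    · have hzy := hyz.symm
      simp only [hyz, hzy, if_true]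
      have h1 : (1 : ℝ) ≤ G.degree y := by
        have : 0 < G.degree y := by
          rw [G.degree_pos_iff_exists_adj]
          exact ⟨z, hyz⟩
        exact_mod_cast this
      have h2 : (1 : ℝ) ≤ G.degree z := by
        have : 0 < G.degree z := by
          rw [G.degree_pos_iff_exists_adj]
          exact ⟨y, hzy⟩
        exact_mod_cast this
      rw [max_eq_left h1, max_eq_left h2]
      have h3 : (G.degree y : ℝ) ≠ 0 := by linarith
      have h4 : (G.degree z : ℝ) ≠ 0 := by linarith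
      field_simp
    · have hzy : ¬ G.Adj z y := fun h => hyz h.symm
      simp [hyz, hzy]

theorem p0_ge (H : Cond G q θ D L T) {h : ℝ} (h0 : 0 < h)
    (h2 : (Fintype.card V : ℝ) * h ≤ 1 / 2) : 1 / 2 ≤ p0 q (al q θ h) (cc G θ h) := by
  unfold p0
  have : ∑ y, hh q (al q θ h) (cc G θ h) y ≤ ∑ _y : V, h :=
    Finset.sum_le_sum fun y _ => hh_cc_le H h0.le y
  rw [Finset.sum_const, Finset.card_univ, nsmul_eq_mul] at this
  linarith

theorem distOK (H : Cond G q θ D L T) (h : ℝ) :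
    DistOK (cc G θ h) θ (fun w v => G.dist w v) L T := by
  refine ⟨fun v => by simp, ?_, H.one_le, H.small, H.row, ?_⟩
  · intro w z v hwz
    unfold cc at hwz
    split_ifs at hwz with h1
    · have e1 := H.conn.dist_triangle (u := w) (v := z) (w := v)
      have e2 : G.dist w z = 1 := SimpleGraph.dist_eq_one_iff_adj.2 h1
      rw [e2] at e1
      show G.dist w v ≤ G.dist z v + 1
      omega
    · exact absurd rfl hwz
  · intro v
    have := H.row v
    refine le_trans (le_of_eq ?_) this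
    refine Finset.sum_congr rfl fun w _ => ?_
    rw [SimpleGraph.dist_comm]

/-- the constant `S0` -/
noncomputable def SS (q : ℕ) (θ D : ℝ) : ℝ := ((q / θ + 2) * D + 1) / θ

/-- the constant of the commutation inequality -/
noncomputable def CC (q : ℕ) (θ D T : ℝ) : ℝ := Real.exp (SS q θ D) * √D * T

theorem CC_nonneg (H : Cond G q θ D L T) : 0 ≤ CC q θ D T := by
  have := H.T_nonneg
  unfold CC; positivity

theorem small_ok (H : Cond G q θ D L T) {h : ℝ}
    (h1 : 2 * h * (q / θ + 2 + SS q θ D) ≤ 1)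
    (h2 : h * (4 * (SS q θ D + (q / θ + 2 + SS q θ D) * ((q / θ + 2) * D + SS q θ D))) ≤ 1) :
    Small θ h (q / θ) D (SS q θ D) := by
  have hθ := H.θ_pos
  have hD := H.one_le_D
  refine ⟨H.θ_pos, H.θ_lt.le, ?_, ?_, by linarith, h1, h2⟩
  · unfold SS; field_simp
  · unfold SS
    have : 0 ≤ (q : ℝ) / θ := by positivity
    positivity

/-- the sequence of steps -/
noncomputable def hs (i : ℕ) : ℝ := ((i : ℝ) + 1)⁻¹

theorem hs_pos (i : ℕ) : 0 < hs i := by unfold hs; positivity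

theorem hs_tendsto : Tendsto hs atTop (𝓝 0) := by
  unfold hs
  have := tendsto_one_div_add_atTop_nhds_zero_nat (𝕜 := ℝ)
  simpa [one_div] using this

/-- the number of steps -/
noncomputable def ms (t : ℝ) (i : ℕ) : ℕ := ⌊t * ((i : ℝ) + 1)⌋₊

theorem ms_tendsto {t : ℝ} (ht : 0 ≤ t) :
    Tendsto (fun i => (ms t i : ℝ) * hs i) atTop (𝓝 t) := by
  have h1 := tendsto_nat_floor_mul_div_atTop (R := ℝ) ht
  have h2 : Tendsto (fun i : ℕ => (i : ℝ) + 1) atTop atTop :=
    tendsto_atTop_add_const_right _ _ tendsto_natCast_atTop_atTop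
  have h3 := h1.comp h2
  refine h3.congr fun i => ?_
  simp [ms, hs, div_eq_mul_inv]

theorem ev_mul_le (c : ℝ) {r : ℝ} (hr : 0 < r) : ∀ᶠ i in atTop, c * hs i ≤ r := by
  have h1 : Tendsto (fun i => c * hs i) atTop (𝓝 (c * 0)) := hs_tendsto.const_mul c
  rw [mul_zero] at h1
  exact (h1.eventually (gt_mem_nhds hr)).mono fun i hi => hi.le

theorem ev_good (H : Cond G q θ D L T) : ∀ᶠ i in atTop,
    Good q (al q θ (hs i)) (cc G θ (hs i)) θ (hs i) (q / θ) D
      (fun v => max (G.degree v : ℝ) 1) ∧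
    Small θ (hs i) (q / θ) D (SS q θ D) ∧ 1 / 2 ≤ p0 q (al q θ (hs i)) (cc G θ (hs i)) := by
  have h1 := ev_mul_le 1 (r := 1 / 2) (by norm_num)
  have h2 := ev_mul_le (Fintype.card V : ℝ) (r := 1 / 2) (by norm_num)
  have h3 := ev_mul_le (2 * (q / θ + 2 + SS q θ D)) (r := 1) (by norm_num)
  have h4 := ev_mul_le (4 * (SS q θ D + (q / θ + 2 + SS q θ D) *
    ((q / θ + 2) * D + SS q θ D))) (r := 1) (by norm_num)
  filter_upwards [h1, h2, h3, h4] with i h1 h2 h3 h4
  refine ⟨good H (hs_pos i) (by linarith) h2, small_ok H (by linarith) (by linarith),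
    p0_ge H (hs_pos i) h2⟩

theorem nonempty_conf (H : Cond G q θ D L T) : Nonempty (V → Fin q) := by
  have := H.q_pos
  exact ⟨fun _ => ⟨0, this⟩⟩

theorem tends (H : Cond G q θ D L T) {t : ℝ} (ht : 0 ≤ t)
    {F : ℕ → (V → Fin q) → ℝ} {F' : (V → Fin q) → ℝ}
    (hF : ∀ y, Tendsto (fun i => F i y) atTop (𝓝 (F' y))) (x : V → Fin q) :
    Tendsto (fun i => It (al q θ (hs i)) (cc G θ (hs i)) (ms t i) (F i) x) atTop
      (𝓝 (Pt G q θ t F' x)) :=
  tendsto_It (nonempty_conf H) (Eventually.of_forall hs_pos) hs_tendsto (ms_tendsto ht) hF x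

theorem Pt_nonneg (H : Cond G q θ D L T) {t : ℝ} (ht : 0 ≤ t) {F : (V → Fin q) → ℝ}
    (hF : ∀ x, 0 ≤ F x) (x : V → Fin q) : 0 ≤ Pt G q θ t F x := by
  refine ge_of_tendsto (tends H ht (F := fun _ => F) (fun y => tendsto_const_nhds) x) ?_
  filter_upwards [ev_good H] with i hi
  exact It_nonneg hi.1.α_pos.le hi.1.c_nonneg hi.1.p0_nonneg _ F hF x

theorem Pt_const (H : Cond G q θ D L T) {t : ℝ} (ht : 0 ≤ t) (r : ℝ) (x : V → Fin q) :
    Pt G q θ t (fun _ => r) x = r := by
  refine tendsto_nhds_unique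
    (tends H ht (F := fun _ _ => r) (fun y => tendsto_const_nhds) x) ?_
  simp only [It_const]
  exact tendsto_const_nhds

theorem law_nonneg (H : Cond G q θ D L T) {t : ℝ} (ht : 0 ≤ t) (x y : V → Fin q) :
    0 ≤ law G q θ x t y := by
  have := Pt_nonneg H ht (F := fun z => if z = y then 1 else 0)
    (fun z => by split_ifs <;> norm_num) x
  unfold Pt at this
  simpa using this

theorem law_sum (H : Cond G q θ D L T) {t : ℝ} (ht : 0 ≤ t) (x : V → Fin q) :
    ∑ y, law G q θ x t y = 1 := by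
  have := Pt_const H ht 1 x
  unfold Pt at this
  simpa using this

theorem Pt_Pt (s t : ℝ) (F : (V → Fin q) → ℝ) (x : V → Fin q) :
    Pt G q θ s (Pt G q θ t F) x = Pt G q θ (s + t) F x := by
  unfold Pt
  simp only [law_add, Finset.mul_sum, Finset.sum_mul]
  rw [Finset.sum_comm]
  exact Finset.sum_congr rfl fun y _ => Finset.sum_congr rfl fun z _ => by ring

theorem pow_le_exp' (H : Cond G q θ D L T) {h : ℝ} (h0 : 0 < h) (h1 : h ≤ 1 / 2) (m : ℕ) :
    (1 - θ * h / 2) ^ m ≤ Real.exp (-(θ / 2) * (m * h)) := by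
  have hθ := H.θ_pos
  have hθ' := H.θ_lt
  have e1 : 1 - θ * h / 2 ≤ Real.exp (-(θ * h / 2)) := by
    have := Real.add_one_le_exp (-(θ * h / 2))
    linarith
  have e2 : 0 ≤ 1 - θ * h / 2 := by nlinarith
  refine (pow_le_pow_left₀ e2 e1 m).trans (le_of_eq ?_)
  rw [← Real.exp_nat_mul]
  ring_nf

/-- gradient commutation in continuous time -/
theorem GG_Pt (H : Cond G q θ D L T) {t : ℝ} (ht : 0 ≤ t) (g : (V → Fin q) → ℝ)
    (x : V → Fin q) :
    GG (Pt G q θ t g) x ≤ CC q θ D T * Real.exp (-(θ / 2) * t) * Pt G q θ t (GG g) x := by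
  have hlim : ∀ x, Tendsto (fun i => It (al q θ (hs i)) (cc G θ (hs i)) (ms t i) g x) atTop
      (𝓝 (Pt G q θ t g x)) := fun x =>
    tends H ht (F := fun _ => g) (fun y => tendsto_const_nhds) x
  have hl : Tendsto (fun i => GG (It (al q θ (hs i)) (cc G θ (hs i)) (ms t i) g) x) atTop
      (𝓝 (GG (Pt G q θ t g) x)) := by
    unfold GG del
    exact tendsto_finsetSum _ fun a _ => tendsto_finsetSum _ fun v _ =>
      ((hlim _).sub (hlim _)).pow 2
  have hr : Tendsto (fun i => CC q θ D T * Real.exp (-(θ / 2) * (ms t i * hs i)) *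
      It (al q θ (hs i)) (cc G θ (hs i)) (ms t i) (GG g) x) atTop
      (𝓝 (CC q θ D T * Real.exp (-(θ / 2) * t) * Pt G q θ t (GG g) x)) := by
    refine Tendsto.mul (Tendsto.mul tendsto_const_nhds ?_)
      (tends H ht (F := fun _ => GG g) (fun y => tendsto_const_nhds) x)
    exact (Real.continuous_exp.tendsto _).comp ((ms_tendsto ht).const_mul _)
  refine le_of_tendsto_of_tendsto hl hr ?_
  filter_upwards [ev_good H] with i hi
  refine (comm hi.1 hi.2.1 (distOK H (hs i)) H.T_nonneg (ms t i) g x).trans ?_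
  refine mul_le_mul_of_nonneg_right ?_ ?_
  · exact mul_le_mul_of_nonneg_left (pow_le_exp' H (hs_pos i) hi.1.h_le _) (CC_nonneg H)
  · refine It_nonneg hi.1.α_pos.le hi.1.c_nonneg hi.1.p0_nonneg _ _ (fun y => ?_) x
    unfold GG
    exact Finset.sum_nonneg fun a _ => Finset.sum_nonneg fun v _ => sq_nonneg _

/-- variance bound in continuous time -/
theorem var_Pt (H : Cond G q θ D L T) {r s : ℝ} (hr : 0 ≤ r) (hs' : 0 ≤ s)
    {f : (V → Fin q) → ℝ} (hf0 : ∀ x, 0 ≤ f x) (hf1 : ∀ x, f x ≤ 1) (x : V → Fin q) :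
    Pt G q θ r (fun y => (Pt G q θ s f y) ^ 2) x - (Pt G q θ (r + s) f x) ^ 2 ≤
      (2 * q / θ * CC q θ D T) * Real.exp (-(θ / 2) * s) := by
  have hlim : ∀ x, Tendsto (fun i => It (al q θ (hs i)) (cc G θ (hs i)) (ms s i) f x) atTop
      (𝓝 (Pt G q θ s f x)) := fun x =>
    tends H hs' (F := fun _ => f) (fun y => tendsto_const_nhds) x
  have h1 : Tendsto (fun i => It (al q θ (hs i)) (cc G θ (hs i)) (ms r i)
      (fun y => (It (al q θ (hs i)) (cc G θ (hs i)) (ms s i) f y) ^ 2) x) atTop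
      (𝓝 (Pt G q θ r (fun y => (Pt G q θ s f y) ^ 2) x)) :=
    tends H hr (F := fun i y => (It (al q θ (hs i)) (cc G θ (hs i)) (ms s i) f y) ^ 2)
      (fun y => (hlim y).pow 2) x
  have h2 : Tendsto (fun i => It (al q θ (hs i)) (cc G θ (hs i)) (ms r i)
      (fun y => It (al q θ (hs i)) (cc G θ (hs i)) (ms s i) f y) x) atTop
      (𝓝 (Pt G q θ r (fun y => Pt G q θ s f y) x)) :=
    tends H hr (F := fun i y => It (al q θ (hs i)) (cc G θ (hs i)) (ms s i) f y)
      (fun y => hlim y) x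
  have h3 : Tendsto (fun i => VV (al q θ (hs i)) (cc G θ (hs i)) (ms r i)
      (It (al q θ (hs i)) (cc G θ (hs i)) (ms s i) f) x) atTop
      (𝓝 (Pt G q θ r (fun y => (Pt G q θ s f y) ^ 2) x - (Pt G q θ (r + s) f x) ^ 2)) := by
    unfold VV
    rw [← Pt_Pt]
    exact h1.sub (h2.pow 2)
  have h4 : Tendsto (fun i => (2 * q / θ * CC q θ D T) *
      Real.exp (-(θ / 2) * (ms s i * hs i))) atTop
      (𝓝 ((2 * q / θ * CC q θ D T) * Real.exp (-(θ / 2) * s))) := by
    refine Tendsto.mul tendsto_const_nhds ?_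
    exact (Real.continuous_exp.tendsto _).comp ((ms_tendsto hs').const_mul _)
  refine le_of_tendsto_of_tendsto h3 h4 ?_
  filter_upwards [ev_good H] with i hi
  obtain ⟨hi1, hi2, hi3⟩ := hi
  have hp : 0 < p0 q (al q θ (hs i)) (cc G θ (hs i)) := by linarith
  have e1 := var_contr hi1 H.q_pos hi2 (distOK H (hs i)) H.T_nonneg hp (ms s i) (ms r i) f x
  have e2 := VV_le_one hi1 (ms r i + ms s i) hf0 hf1 x
  have e2' := VV_nonneg hi1 (ms r i + ms s i) f x
  have hC := CC_nonneg H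
  have hα := hi1.α_pos
  have hθ := H.θ_pos
  have hh0 := hs_pos i
  have hq : (0 : ℝ) < q := by
    have := H.q_pos
    have : 0 < q := this
    exact_mod_cast this
  have hpow : 0 ≤ (1 - θ * hs i / 2) ^ (ms s i) := by
    have := hi1.h_le
    have := H.θ_lt
    apply pow_nonneg
    nlinarith
  have e3 : hs i * (Real.exp (SS q θ D) * √D * T * (1 - θ * hs i / 2) ^ (ms s i)) /
      (p0 q (al q θ (hs i)) (cc G θ (hs i)) * al q θ (hs i)) ≤
      (2 * q / θ * CC q θ D T) * Real.exp (-(θ / 2) * (ms s i * hs i)) := by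
    have f1 : hs i * (Real.exp (SS q θ D) * √D * T * (1 - θ * hs i / 2) ^ (ms s i)) =
        hs i * (CC q θ D T * (1 - θ * hs i / 2) ^ (ms s i)) := rfl
    rw [f1, div_le_iff₀ (mul_pos hp hα)]
    have f2 := pow_le_exp' H hh0 hi1.h_le (ms s i)
    have f3 : (2 * q / θ * CC q θ D T) * Real.exp (-(θ / 2) * (ms s i * hs i)) *
        ((1 / 2) * al q θ (hs i)) ≤
        (2 * q / θ * CC q θ D T) * Real.exp (-(θ / 2) * (ms s i * hs i)) *
        (p0 q (al q θ (hs i)) (cc G θ (hs i)) * al q θ (hs i)) := by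
      apply mul_le_mul_of_nonneg_left
      · exact mul_le_mul_of_nonneg_right hi3 hα.le
      · positivity
    refine le_trans ?_ f3
    have f4 : (2 * q / θ * CC q θ D T) * Real.exp (-(θ / 2) * (ms s i * hs i)) *
        ((1 / 2) * al q θ (hs i)) = hs i * (CC q θ D T *
          Real.exp (-(θ / 2) * (ms s i * hs i))) := by
      unfold al
      field_simp
    rw [f4]
    exact mul_le_mul_of_nonneg_left (mul_le_mul_of_nonneg_left f2 hC) hh0.le
  have e4 : 0 ≤ hs i * (Real.exp (SS q θ D) * √D * T * (1 - θ * hs i / 2) ^ (ms s i)) /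
      (p0 q (al q θ (hs i)) (cc G θ (hs i)) * al q θ (hs i)) := by
    have f1 : hs i * (Real.exp (SS q θ D) * √D * T * (1 - θ * hs i / 2) ^ (ms s i)) =
        hs i * (CC q θ D T * (1 - θ * hs i / 2) ^ (ms s i)) := rfl
    rw [f1]
    positivity
  refine e1.trans (le_trans (mul_le_mul_of_nonneg_left e2 e4) ?_)
  rw [mul_one]
  exact e3

end Pool.Agent.helper69.NV
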