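import Pool.Agent.helper69.NV.Semi

/-!
From variance decay to total variation.
-/

namespace Pool.Agent.helper69.NV

open Finset Filter Topology

section generic

variable {Ω : Type} [Fintype Ω]

/-- expectation -/
noncomputable def EE (μ g : Ω → ℝ) : ℝ := ∑ y, μ y * g y

theorem EE_abs_le {μ g : Ω → ℝ} (h0 : ∀ y, 0 ≤ μ y) (h1 : ∑ y, μ y = 1) {c w : ℝ}
    (hg : ∀ y, |g y - c| ≤ w) : |EE μ g - c| ≤ w := by
  have e1 : EE μ g - c = ∑ y, μ y * (g y - c) := by
    unfold EE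
    simp only [mul_sub, Finset.sum_sub_distrib, ← Finset.sum_mul, h1, one_mul]
  rw [e1]
  calc |∑ y, μ y * (g y - c)| ≤ ∑ y, |μ y * (g y - c)| := Finset.abs_sum_le_sum_abs _ _
    _ ≤ ∑ y, μ y * w := by
        refine Finset.sum_le_sum fun y _ => ?_
        rw [abs_mul, abs_of_nonneg (h0 y)]
        exact mul_le_mul_of_nonneg_left (hg y) (h0 y)
    _ = w := by rw [← Finset.sum_mul, h1, one_mul]

theorem EE_var {μ g : Ω → ℝ} (h1 : ∑ y, μ y = 1) :
    ∑ y, μ y * (g y - EE μ g) ^ 2 = EE μ (fun y => (g y) ^ 2) - (EE μ g) ^ 2 := by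
  have e1 : ∀ y, μ y * (g y - EE μ g) ^ 2 = μ y * (g y) ^ 2 - 2 * EE μ g * (μ y * g y) +
      (EE μ g) ^ 2 * μ y := fun y => by ring
  simp only [e1, Finset.sum_add_distrib, Finset.sum_sub_distrib, ← Finset.mul_sum, h1]
  have e2 : ∑ y, μ y * g y = EE μ g := rfl
  rw [e2]
  unfold EE
  ring

theorem cheb {μ g : Ω → ℝ} (h0 : ∀ y, 0 ≤ μ y) (h1 : ∑ y, μ y = 1) {c η : ℝ} (hc : 0 < c)
    (hv : EE μ (fun y => (g y) ^ 2) - (EE μ g) ^ 2 ≤ η) (B : Finset Ω)
    (hB : ∀ y ∈ B, c ≤ |g y - EE μ g|) : ∑ y ∈ B, μ y ≤ η / c ^ 2 := by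
  rw [le_div_iff₀ (by positivity), ← EE_var h1] at *
  refine le_trans ?_ hv
  rw [Finset.sum_mul]
  calc ∑ y ∈ B, μ y * c ^ 2 ≤ ∑ y ∈ B, μ y * (g y - EE μ g) ^ 2 := by
        refine Finset.sum_le_sum fun y hy => mul_le_mul_of_nonneg_left ?_ (h0 y)
        rw [← sq_abs (g y - EE μ g)]
        exact pow_le_pow_left₀ hc.le (hB y hy) 2
    _ ≤ _ := Finset.sum_le_univ_sum_of_nonneg fun y => mul_nonneg (h0 y) (sq_nonneg _)

theorem tv_ge [DecidableEq Ω] {ν μ : Ω → ℝ} (hν : ∑ y, ν y = 1) (hμ : ∑ y, μ y = 1)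
    (B : Finset Ω) : ∑ y ∈ B, ν y - ∑ y ∈ B, μ y ≤ tv ν μ := by
  unfold tv
  have e1 : ∑ y, |ν y - μ y| = ∑ y ∈ B, |ν y - μ y| + ∑ y ∈ Bᶜ, |ν y - μ y| :=
    (Finset.sum_add_sum_compl B _).symm
  have e2 : ∑ y ∈ B, ν y + ∑ y ∈ Bᶜ, ν y = 1 := by rw [Finset.sum_add_sum_compl, hν]
  have e3 : ∑ y ∈ B, μ y + ∑ y ∈ Bᶜ, μ y = 1 := by rw [Finset.sum_add_sum_compl, hμ]
  have h1 : ∑ y ∈ B, (ν y - μ y) ≤ ∑ y ∈ B, |ν y - μ y| :=
    Finset.sum_le_sum fun y _ => le_abs_self _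
  have h2 : ∑ y ∈ Bᶜ, (μ y - ν y) ≤ ∑ y ∈ Bᶜ, |ν y - μ y| :=
    Finset.sum_le_sum fun y _ => by rw [abs_sub_comm]; exact le_abs_self _
  rw [Finset.sum_sub_distrib] at h1 h2
  rw [e1]
  linarith

theorem tv_eq_pos {ν μ : Ω → ℝ} (hν : ∑ y, ν y = 1) (hμ : ∑ y, μ y = 1) :
    EE ν (fun y => if μ y < ν y then 1 else 0) - EE μ (fun y => if μ y < ν y then 1 else 0) =
      tv ν μ := by
  unfold EE tv
  rw [← Finset.sum_sub_distrib, Finset.mul_sum]
  have e1 : ∑ y, (ν y - μ y) = 0 := by rw [Finset.sum_sub_distrib, hν, hμ, sub_self]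
  have e2 : ∀ y, ν y * (if μ y < ν y then 1 else 0) - μ y * (if μ y < ν y then 1 else 0) =
      1 / 2 * |ν y - μ y| + 1 / 2 * (ν y - μ y) := by
    intro y
    split_ifs with h
    · rw [abs_of_pos (by linarith)]; ring
    · rw [abs_of_nonpos (by linarith)]; ring
  simp only [e2, Finset.sum_add_distrib, ← Finset.mul_sum, e1]
  ring

theorem tv_lower [DecidableEq Ω] {ν μ g : Ω → ℝ} (hν0 : ∀ y, 0 ≤ ν y) (hμ0 : ∀ y, 0 ≤ μ y)
    (hν : ∑ y, ν y = 1) (hμ : ∑ y, μ y = 1) {ε η : ℝ} (hε : 0 < ε)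
    (hg : ε ≤ EE ν g - EE μ g)
    (hv1 : EE ν (fun y => (g y) ^ 2) - (EE ν g) ^ 2 ≤ η)
    (hv2 : EE μ (fun y => (g y) ^ 2) - (EE μ g) ^ 2 ≤ η) :
    1 - 8 * η / ε ^ 2 ≤ tv ν μ := by
  set c := (EE ν g + EE μ g) / 2 with hc
  set B := Finset.univ.filter fun y => c ≤ g y with hB
  have h1 := tv_ge hν hμ B
  have h2 : ∑ y ∈ Bᶜ, ν y ≤ η / (ε / 2) ^ 2 := by
    refine cheb hν0 hν (by positivity) hv1 _ fun y hy => ?_
    have : g y < c := by
      simpa [hB] using hy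
    rw [abs_sub_comm]
    refine le_trans ?_ (le_abs_self _)
    linarith
  have h3 : ∑ y ∈ B, μ y ≤ η / (ε / 2) ^ 2 := by
    refine cheb hμ0 hμ (by positivity) hv2 _ fun y hy => ?_
    have : c ≤ g y := by
      simpa [hB] using hy
    refine le_trans ?_ (le_abs_self _)
    linarith
  have e2 : ∑ y ∈ B, ν y + ∑ y ∈ Bᶜ, ν y = 1 := by rw [Finset.sum_add_sum_compl, hν]
  have e3 : 8 * η / ε ^ 2 = η / (ε / 2) ^ 2 + η / (ε / 2) ^ 2 := by field_simp; ring
  rw [e3]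
  linarith

end generic

variable {V : Type} [Fintype V] [DecidableEq V] {G : SimpleGraph V} [DecidableRel G.Adj]
  {q : ℕ} {θ : ℝ} {D L T : ℝ}

theorem Pt_mono (H : Cond G q θ D L T) {t : ℝ} (ht : 0 ≤ t) {F F' : (V → Fin q) → ℝ}
    (h : ∀ x, F x ≤ F' x) (x : V → Fin q) : Pt G q θ t F x ≤ Pt G q θ t F' x := by
  unfold Pt
  exact Finset.sum_le_sum fun y _ => mul_le_mul_of_nonneg_left (h y) (law_nonneg H ht x y)

/-- oscillation bound -/
noncomputable def om (V : Type) [Fintype V] (q : ℕ) (θ D T t : ℝ) : ℝ :=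
  (Fintype.card V : ℝ) * √(CC q θ D T * Real.exp (-(θ / 2) * t) * (q * Fintype.card V))

theorem om_tendsto (hθ : 0 < θ) : Tendsto (fun n : ℕ => om V q θ D T n) atTop (𝓝 0) := by
  have h1 : Tendsto (fun n : ℕ => Real.exp (-(θ / 2) * (n : ℝ))) atTop (𝓝 0) := by
    have h2 : Tendsto (fun n : ℕ => (θ / 2) * (n : ℝ)) atTop atTop :=
      tendsto_natCast_atTop_atTop.const_mul_atTop (by positivity)
    have h3 := Real.tendsto_exp_neg_atTop_nhds_zero.comp h2
    refine h3.congr fun n => ?_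
    simp
  have h2 : Tendsto (fun n : ℕ => CC q θ D T * Real.exp (-(θ / 2) * (n : ℝ)) *
      (q * Fintype.card V)) atTop (𝓝 (CC q θ D T * 0 * (q * Fintype.card V))) :=
    (h1.const_mul _).mul_const _
  rw [mul_zero, zero_mul] at h2
  have h3 := ((Real.continuous_sqrt.tendsto 0).comp h2).const_mul (Fintype.card V : ℝ)
  rw [Real.sqrt_zero, mul_zero] at h3
  exact h3

theorem osc (H : Cond G q θ D L T) {t : ℝ} (ht : 0 ≤ t)
    {f : (V → Fin q) → ℝ} (hf0 : ∀ x, 0 ≤ f x) (hf1 : ∀ x, f x ≤ 1) (x y : V → Fin q) :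
    |Pt G q θ t f y - Pt G q θ t f x| ≤ om V q θ D T t := by
  have hG : ∀ z, GG f z ≤ q * Fintype.card V := by
    intro z
    unfold GG
    have : ∀ (a : Fin q) (v : V), (del a v f z) ^ 2 ≤ 1 := by
      intro a v
      unfold del
      have h1 := hf0 z
      have h2 := hf1 z
      have h3 := hf0 (Function.update z v a)
      have h4 := hf1 (Function.update z v a)
      nlinarith
    calc ∑ a : Fin q, ∑ v, (del a v f z) ^ 2 ≤ ∑ a : Fin q, ∑ v : V, (1:ℝ) :=
          Finset.sum_le_sum fun a _ => Finset.sum_le_sum fun v _ => this a v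
      _ = _ := by simp
  set δ := √(CC q θ D T * Real.exp (-(θ / 2) * t) * (q * Fintype.card V)) with hδ
  have hsite : ∀ (z : V → Fin q) (v : V) (a : Fin q),
      |Pt G q θ t f (Function.update z v a) - Pt G q θ t f z| ≤ δ := by
    intro z v a
    apply Real.abs_le_sqrt
    have h1 := GG_Pt H ht f z
    have h2 : Pt G q θ t (GG f) z ≤ q * Fintype.card V := by
      refine (Pt_mono H ht hG z).trans (le_of_eq (Pt_const H ht _ z))
    have h3 : (Pt G q θ t f (Function.update z v a) - Pt G q θ t f z) ^ 2 ≤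
        GG (Pt G q θ t f) z := by
      unfold GG
      refine le_trans ?_ (Finset.single_le_sum (f := fun a => ∑ v, (del a v (Pt G q θ t f) z) ^ 2)
        (fun a _ => Finset.sum_nonneg fun v _ => sq_nonneg _) (Finset.mem_univ a))
      exact Finset.single_le_sum (f := fun v => (del a v (Pt G q θ t f) z) ^ 2)
        (fun v _ => sq_nonneg _) (Finset.mem_univ v)
    refine h3.trans (h1.trans (mul_le_mul_of_nonneg_left h2 ?_))
    have := CC_nonneg H
    positivity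
  have hS : ∀ S : Finset V, |Pt G q θ t f (fun v => if v ∈ S then y v else x v) -
      Pt G q θ t f x| ≤ S.card * δ := by
    intro S
    induction S using Finset.induction_on with
    | empty => simp
    | insert v S hv ih =>
      have e1 : (fun w => if w ∈ insert v S then y w else x w) =
          Function.update (fun w => if w ∈ S then y w else x w) v (y v) := by
        funext w
        by_cases hw : w = v
        · subst hw; simp
        · rw [Function.update_of_ne hw]; simp [hw]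
      rw [e1, Finset.card_insert_of_notMem hv]
      have h1 := hsite (fun w => if w ∈ S then y w else x w) v (y v)
      have h2 := abs_sub_le (Pt G q θ t f (Function.update
        (fun w => if w ∈ S then y w else x w) v (y v)))
        (Pt G q θ t f (fun w => if w ∈ S then y w else x w)) (Pt G q θ t f x)
      push_cast
      linarith
  have h := hS Finset.univ
  have e : (fun v => if v ∈ (Finset.univ : Finset V) then y v else x v) = y := by
    funext v; simp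
  rw [e, Finset.card_univ] at h
  exact h

theorem ind_mem (y z : V → Fin q) : 0 ≤ (if z = y then (1:ℝ) else 0) ∧
    (if z = y then (1:ℝ) else 0) ≤ 1 := by split_ifs <;> norm_num

theorem law_eq_Pt (x y : V → Fin q) (t : ℝ) :
    law G q θ x t y = Pt G q θ t (fun z => if z = y then 1 else 0) x := by
  simp [Pt]

theorem law_diff (H : Cond G q θ D L T) {s t : ℝ} (hs' : 0 ≤ s) (ht : 0 ≤ t)
    (x y : V → Fin q) : |law G q θ x (s + t) y - law G q θ x t y| ≤ om V q θ D T t := by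
  rw [law_eq_Pt, law_eq_Pt, ← Pt_Pt]
  refine EE_abs_le (μ := law G q θ x s) (law_nonneg H hs' x) (law_sum H hs' x) fun z => ?_
  exact osc H ht (fun z => (ind_mem y z).1) (fun z => (ind_mem y z).2) x z

theorem stat_close (H : Cond G q θ D L T) {μ : (V → Fin q) → ℝ}
    (hμ : IsStationary G q θ μ) {t : ℝ} (ht : 0 ≤ t) (x y : V → Fin q) :
    |law G q θ x t y - μ y| ≤ om V q θ D T t := by
  rw [abs_sub_comm, ← hμ.2.2 t ht y]
  refine EE_abs_le (μ := μ) hμ.1 hμ.2.1 fun z => ?_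
  rw [law_eq_Pt, law_eq_Pt]
  exact osc H ht (fun z => (ind_mem y z).1) (fun z => (ind_mem y z).2) x z

theorem law_tendsto (H : Cond G q θ D L T) {μ : (V → Fin q) → ℝ}
    (hμ : IsStationary G q θ μ) (s : ℝ) (hs' : 0 ≤ s) (x y : V → Fin q) :
    Tendsto (fun n : ℕ => law G q θ x (n + s) y) atTop (𝓝 (μ y)) := by
  rw [tendsto_iff_norm_sub_tendsto_zero]
  refine squeeze_zero (fun _ => norm_nonneg _) (g := fun n : ℕ => om V q θ D T n +
    om V q θ D T n) (fun n => ?_) ?_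
  · have h1 := law_diff H hs' (Nat.cast_nonneg n : (0:ℝ) ≤ n) x y
    have h2 := stat_close H hμ (Nat.cast_nonneg n : (0:ℝ) ≤ n) x y
    rw [Real.norm_eq_abs, add_comm (n:ℝ) s]
    have h3 := abs_sub_le (law G q θ x (s + n) y) (law G q θ x n y) (μ y)
    linarith
  · have := (om_tendsto (V := V) (q := q) (D := D) (T := T) H.θ_pos).add
      (om_tendsto (V := V) (q := q) (D := D) (T := T) H.θ_pos)
    simpa using this

theorem exists_stationary (H : Cond G q θ D L T) :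
    ∃! μ : (V → Fin q) → ℝ, IsStationary G q θ μ := by
  obtain ⟨x₀⟩ := nonempty_conf H
  have hom := om_tendsto (V := V) (q := q) (D := D) (T := T) H.θ_pos
  have hc : ∀ y, ∃ l, Tendsto (fun n : ℕ => law G q θ x₀ n y) atTop (𝓝 l) := by
    intro y
    apply cauchySeq_tendsto_of_complete
    refine cauchySeq_of_le_tendsto_0 (fun N => om V q θ D T N + om V q θ D T N)
      (fun n m N hn hm => ?_) (by simpa using hom.add hom)
    have h1 := law_diff H (s := (n:ℝ) - N) (t := N) (by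
      rw [sub_nonneg]; exact_mod_cast hn) (Nat.cast_nonneg N) x₀ y
    have h2 := law_diff H (s := (m:ℝ) - N) (t := N) (by
      rw [sub_nonneg]; exact_mod_cast hm) (Nat.cast_nonneg N) x₀ y
    rw [sub_add_cancel] at h1 h2
    rw [Real.dist_eq]
    have h3 := abs_sub_le (law G q θ x₀ n y) (law G q θ x₀ N y) (law G q θ x₀ m y)
    rw [abs_sub_comm (law G q θ x₀ N y)] at h3
    linarith
  choose μ hμ using hc
  refine ⟨μ, ⟨fun y => ?_, ?_, fun t ht y => ?_⟩, fun ν hν => ?_⟩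
  · exact ge_of_tendsto' (hμ y) fun n => law_nonneg H (Nat.cast_nonneg n) x₀ y
  · have h1 : Tendsto (fun n : ℕ => ∑ y, law G q θ x₀ n y) atTop (𝓝 (∑ y, μ y)) :=
      tendsto_finsetSum _ fun y _ => hμ y
    refine tendsto_nhds_unique h1 ?_
    simp only [law_sum H (Nat.cast_nonneg _)]
    exact tendsto_const_nhds
  · have h1 : Tendsto (fun n : ℕ => ∑ x, law G q θ x₀ n x * law G q θ x t y) atTop
        (𝓝 (∑ x, μ x * law G q θ x t y)) :=
      tendsto_finsetSum _ fun x _ => (hμ x).mul_const _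
    simp only [← law_add] at h1
    refine tendsto_nhds_unique h1 ?_
    have h2 : Tendsto (fun n : ℕ => law G q θ x₀ (n + t) y - law G q θ x₀ n y) atTop
        (𝓝 0) := by
      refine squeeze_zero_norm (fun n => ?_) hom
      rw [Real.norm_eq_abs, add_comm]
      exact law_diff H ht (Nat.cast_nonneg n) x₀ y
    have h3 := h2.add (hμ y)
    simpa using h3
  · funext y
    have h1 := law_tendsto H hν 0 le_rfl x₀ y
    simp only [add_zero] at h1
    exact tendsto_nhds_unique h1 (hμ y)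

theorem Pt_tendsto (H : Cond G q θ D L T) {μ : (V → Fin q) → ℝ}
    (hμ : IsStationary G q θ μ) (s : ℝ) (hs' : 0 ≤ s) (x : V → Fin q) (F : (V → Fin q) → ℝ) :
    Tendsto (fun n : ℕ => Pt G q θ (n + s) F x) atTop (𝓝 (EE μ F)) := by
  unfold Pt EE
  exact tendsto_finsetSum _ fun y _ => (law_tendsto H hμ s hs' x y).mul_const _

theorem EE_Pt {μ : (V → Fin q) → ℝ}
    (hμ : IsStationary G q θ μ) {s : ℝ} (hs' : 0 ≤ s) (F : (V → Fin q) → ℝ) :
    EE μ (Pt G q θ s F) = EE μ F := by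
  unfold EE Pt
  simp only [Finset.mul_sum]
  rw [Finset.sum_comm]
  refine Finset.sum_congr rfl fun y _ => ?_
  rw [← hμ.2.2 s hs' y, Finset.sum_mul]
  exact Finset.sum_congr rfl fun z _ => by ring

theorem var_stat (H : Cond G q θ D L T) {μ : (V → Fin q) → ℝ}
    (hμ : IsStationary G q θ μ) {s : ℝ} (hs' : 0 ≤ s)
    {f : (V → Fin q) → ℝ} (hf0 : ∀ x, 0 ≤ f x) (hf1 : ∀ x, f x ≤ 1) :
    EE μ (fun y => (Pt G q θ s f y) ^ 2) - (EE μ (Pt G q θ s f)) ^ 2 ≤
      (2 * q / θ * CC q θ D T) * Real.exp (-(θ / 2) * s) := by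
  obtain ⟨x₀⟩ := nonempty_conf H
  rw [EE_Pt hμ hs']
  have h1 : Tendsto (fun n : ℕ => Pt G q θ (n + 0) (fun y => (Pt G q θ s f y) ^ 2) x₀ -
      (Pt G q θ (n + s) f x₀) ^ 2) atTop
      (𝓝 (EE μ (fun y => (Pt G q θ s f y) ^ 2) - (EE μ f) ^ 2)) :=
    (Pt_tendsto H hμ 0 le_rfl x₀ _).sub ((Pt_tendsto H hμ s hs' x₀ f).pow 2)
  refine le_of_tendsto' h1 fun n => ?_
  rw [add_zero]
  exact var_Pt H (Nat.cast_nonneg n) hs' hf0 hf1 x₀

/-- the key step: a small amount of mixing is amplified in bounded time -/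
theorem step (H : Cond G q θ D L T) {μ : (V → Fin q) → ℝ}
    (hμ : IsStationary G q θ μ) {r s : ℝ} (hr : 0 ≤ r) (hs' : 0 ≤ s) (x₀ : V → Fin q)
    {ε : ℝ} (hε : 0 < ε)
    (hsm : 8 * ((2 * q / θ * CC q θ D T) * Real.exp (-(θ / 2) * s)) / ε ^ 2 < ε)
    (htv : tv (law G q θ x₀ r) μ ≤ 1 - ε) : tv (law G q θ x₀ (r + s)) μ ≤ ε := by
  by_contra hcon
  push Not at hcon
  set ν := law G q θ x₀ (r + s) with hν
  set f : (V → Fin q) → ℝ := fun y => if μ y < ν y then 1 else 0 with hf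
  have hrs : 0 ≤ r + s := by linarith
  have h1 : EE ν f - EE μ f = tv ν μ := tv_eq_pos (law_sum H hrs x₀) hμ.2.1
  have hf0 : ∀ x, 0 ≤ f x := fun x => by simp only [hf]; split_ifs <;> norm_num
  have hf1 : ∀ x, f x ≤ 1 := fun x => by simp only [hf]; split_ifs <;> norm_num
  have h2 : EE (law G q θ x₀ r) (Pt G q θ s f) = EE ν f := by
    have := Pt_Pt (G := G) (q := q) (θ := θ) r s f x₀
    exact this
  have h3 : ε ≤ EE (law G q θ x₀ r) (Pt G q θ s f) - EE μ (Pt G q θ s f) := by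
    rw [h2, EE_Pt hμ hs', h1]
    exact hcon.le
  have h4 : EE (law G q θ x₀ r) (fun y => (Pt G q θ s f y) ^ 2) -
      (EE (law G q θ x₀ r) (Pt G q θ s f)) ^ 2 ≤
      (2 * q / θ * CC q θ D T) * Real.exp (-(θ / 2) * s) := by
    rw [h2]
    exact var_Pt H hr hs' hf0 hf1 x₀
  have h5 := tv_lower (law_nonneg H hr x₀) hμ.1 (law_sum H hr x₀) hμ.2.1 hε h3 h4
    (var_stat H hμ hs' hf0 hf1)
  linarith

theorem set_nonempty (H : Cond G q θ D L T) {μ : (V → Fin q) → ℝ}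
    (hμ : IsStationary G q θ μ) (x₀ : V → Fin q) {ε : ℝ} (hε : 0 < ε) :
    {t : ℝ | 0 ≤ t ∧ tv (law G q θ x₀ t) μ ≤ ε}.Nonempty := by
  have h1 : Tendsto (fun n : ℕ => tv (law G q θ x₀ n) μ) atTop (𝓝 0) := by
    unfold tv
    have h2 : ∀ y, Tendsto (fun n : ℕ => |law G q θ x₀ n y - μ y|) atTop (𝓝 0) := by
      intro y
      have := law_tendsto H hμ 0 le_rfl x₀ y
      simp only [add_zero] at this
      have h3 := (this.sub_const (μ y)).abs
      simpa using h3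
    have h3 : Tendsto (fun n : ℕ => ∑ y, |law G q θ x₀ n y - μ y|) atTop
        (𝓝 (∑ _y : V → Fin q, 0)) := tendsto_finsetSum _ fun y _ => h2 y
    rw [Finset.sum_const_zero] at h3
    have h4 := h3.const_mul (1 / 2 : ℝ)
    rwa [mul_zero] at h4
  obtain ⟨n, hn⟩ := (h1.eventually (gt_mem_nhds hε)).exists
  exact ⟨n, Nat.cast_nonneg n, hn.le⟩

theorem tmix_le (H : Cond G q θ D L T) {μ : (V → Fin q) → ℝ}
    (hμ : IsStationary G q θ μ) {s : ℝ} (hs' : 0 ≤ s) (x₀ : V → Fin q)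
    {ε : ℝ} (hε : 0 < ε) (hε1 : ε < 1)
    (hsm : 8 * ((2 * q / θ * CC q θ D T) * Real.exp (-(θ / 2) * s)) / ε ^ 2 < ε) :
    tmix G q θ μ x₀ ε ≤ tmix G q θ μ x₀ (1 - ε) + s := by
  have hne := set_nonempty H hμ x₀ (ε := 1 - ε) (by linarith)
  have hb : BddBelow {t : ℝ | 0 ≤ t ∧ tv (law G q θ x₀ t) μ ≤ ε} := ⟨0, fun t ht => ht.1⟩
  have h1 : tmix G q θ μ x₀ ε - s ≤ tmix G q θ μ x₀ (1 - ε) := by
    refine le_csInf hne fun r hr => ?_
    have h2 := step H hμ hr.1 hs' x₀ hε hsm hr.2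
    have h3 : tmix G q θ μ x₀ ε ≤ r + s := csInf_le hb ⟨by linarith [hr.1], h2⟩
    linarith
  linarith

theorem tmix_mono (H : Cond G q θ D L T) {μ : (V → Fin q) → ℝ}
    (hμ : IsStationary G q θ μ) (x₀ : V → Fin q)
    {ε δ : ℝ} (hε : 0 < ε) (h : ε ≤ δ) :
    tmix G q θ μ x₀ δ ≤ tmix G q θ μ x₀ ε := by
  have hne := set_nonempty H hμ x₀ hε
  have hb : BddBelow {t : ℝ | 0 ≤ t ∧ tv (law G q θ x₀ t) μ ≤ δ} := ⟨0, fun t ht => ht.1⟩
  exact csInf_le_csInf hb hne fun t ht => ⟨ht.1, ht.2.trans h⟩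

end Pool.Agent.helper69.NV
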