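import Pool.Agent.helper69.NV.Basic

/-!
The telescoping identity for discrete gradients.
-/

namespace Pool.Agent.helper69.NV

open Finset

variable {V : Type} [Fintype V] [DecidableEq V] {q : ℕ}

omit [Fintype V] in
theorem del_act_noise (a b : Fin q) (y u : V) (h : u ≠ y) (G : (V → Fin q) → ℝ) :
    del a u (fun x => G (act (some (Sum.inl (y, b))) x)) =
      fun x => del a u G (act (some (Sum.inl (y, b))) x) := by
  funext x
  simp only [del, act]
  rw [Function.update_comm h]

omit [Fintype V] in
theorem del_act_copy (a : Fin q) (y z u : V) (h : u ≠ y) (hz : u ≠ z) (G : (V → Fin q) → ℝ) :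
    del a u (fun x => G (act (some (Sum.inr (y, z))) x)) =
      fun x => del a u G (act (some (Sum.inr (y, z))) x) := by
  funext x
  simp only [del, act]
  rw [Function.update_comm h, Function.update_of_ne (Ne.symm hz)]

omit [Fintype V] in
theorem del_act_copy_z (a : Fin q) (y z : V) (h : y ≠ z) (G : (V → Fin q) → ℝ) :
    del a z (fun x => G (act (some (Sum.inr (y, z))) x)) =
      fun x => del a z G (act (some (Sum.inl (y, a))) x) +
        del a y G (act (some (Sum.inr (y, z))) x) := by
  funext x
  simp only [del, act]
  rw [Function.update_self, Function.update_idem, Function.update_comm h.symm]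
  ring

omit [Fintype V] in
theorem dep_copy {B : Finset V} {G : (V → Fin q) → ℝ} (hG : Dep B G) {y : V} (hy : y ∉ B)
    (x : V → Fin q) (b : Fin q) : G (Function.update x y b) = G x := by
  apply hG
  intro w hw
  have : w ≠ y := by rintro rfl; exact hy hw
  rw [Function.update_of_ne this]

/-- telescoping identity -/
theorem tele (α : ℝ) (c : V → V → ℝ) (hα : 0 < α) (hc : ∀ y, c y y = 0) (a : Fin q) (v : V)
    (k : ℕ) : ∀ (B : Finset V) (G : (V → Fin q) → ℝ), Dep B G → ∀ x : V → Fin q,
    It α c k G (Function.update x v a) - It α c k G x =
      ∑ u ∈ B, Q α c a k B u v (del a u G) x := by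
  induction k with
  | zero =>
    intro B G hG x
    simp only [It, Q]
    by_cases hv : v ∈ B
    · rw [Finset.sum_ite_eq' B v]
      simp [hv, del]
    · rw [Finset.sum_ite_eq' B v]
      simp only [hv, if_false]
      rw [dep_copy hG hv, sub_self]
  | succ k ih =>
    intro B G hG x
    have hL : It α c (k+1) G (Function.update x v a) - It α c (k+1) G x =
        ∑ e : Ev V q, prob α c e * ∑ u ∈ nB e B,
          Q α c a k (nB e B) u v (del a u (fun x' => G (act e x'))) x := by
      simp only [It]
      rw [← Finset.sum_sub_distrib]
      refine Finset.sum_congr rfl fun e _ => ?_
      rw [← mul_sub, ih (nB e B) _ (dep_nB hG e) x]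
    have hR : ∑ u ∈ B, Q α c a (k+1) B u v (del a u G) x =
        ∑ e : Ev V q, prob α c e * ∑ u ∈ B, rho α c a e B u *
          (match nU e u with
            | none => 0
            | some u' => Q α c a k (nB e B) u' v (fun x' => del a u G (act e x')) x) := by
      simp only [Q]
      rw [Finset.sum_comm]
      refine Finset.sum_congr rfl fun e _ => ?_
      rw [Finset.mul_sum]
      refine Finset.sum_congr rfl fun u _ => ?_
      rcases nU e u with _ | u' <;> rfl
    rw [hL, hR, sum_ev, sum_ev]
    congr 1
    · simp [nB, rho, nU, act]
    rw [← Finset.sum_add_distrib, ← Finset.sum_add_distrib]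
    refine Finset.sum_congr rfl fun y _ => ?_
    simp only [prob]
    by_cases hy : y ∈ B
    · -- alive vertex
      set T : V → ℝ := fun u => Q α c a k (B.erase y) u v
        (fun x' => del a u G (act (some (Sum.inl (y, a))) x')) x with hT
      have h1 : ∀ b : Fin q, α * ∑ u ∈ B, rho α c a (some (Sum.inl (y, b))) B u *
          (match nU (some (Sum.inl (y, b)) : Ev V q) u with
            | none => 0
            | some u' => Q α c a k (nB (some (Sum.inl (y, b)) : Ev V q) B) u' v
              (fun x' => del a u G (act (some (Sum.inl (y, b))) x')) x) =
          α * (∑ u ∈ nB (some (Sum.inl (y, b)) : Ev V q) B,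
            Q α c a k (nB (some (Sum.inl (y, b)) : Ev V q) B) u v
              (del a u (fun x' => G (act (some (Sum.inl (y, b))) x'))) x) +
          (if b = a then ∑ u ∈ B.erase y, c y u * T u else 0) := by
        intro b
        rw [← Finset.add_sum_erase B _ hy]
        have e1 : nU (some (Sum.inl (y, b)) : Ev V q) y = none := by simp [nU]
        simp only [e1, mul_zero, zero_add, nB]
        have e2 : ∑ u ∈ B.erase y, rho α c a (some (Sum.inl (y, b))) B u *
          (match nU (some (Sum.inl (y, b)) : Ev V q) u with
            | none => 0
            | some u' => Q α c a k (B.erase y) u' v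
              (fun x' => del a u G (act (some (Sum.inl (y, b))) x')) x) =
            ∑ u ∈ B.erase y, ((if b = a then 1 + c y u / α else 1) *
              Q α c a k (B.erase y) u v
              (fun x' => del a u G (act (some (Sum.inl (y, b))) x')) x) := by
          refine Finset.sum_congr rfl fun u hu => ?_
          have hne : u ≠ y := (Finset.mem_erase.mp hu).1
          simp only [nU, hne, if_false, rho, hy, Ne, hne.symm, not_false_eq_true,
            and_true]
        have e3 : ∑ u ∈ B.erase y, Q α c a k (B.erase y) u v
              (del a u (fun x' => G (act (some (Sum.inl (y, b))) x'))) x =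
            ∑ u ∈ B.erase y, Q α c a k (B.erase y) u v
              (fun x' => del a u G (act (some (Sum.inl (y, b))) x')) x := by
          refine Finset.sum_congr rfl fun u hu => ?_
          have hne : u ≠ y := (Finset.mem_erase.mp hu).1
          rw [del_act_noise a b y u hne]
        rw [e2, e3]
        by_cases hb : b = a
        · subst hb
          simp only [if_true]
          rw [Finset.mul_sum, Finset.mul_sum, ← Finset.sum_add_distrib]
          refine Finset.sum_congr rfl fun u _ => ?_
          simp only [hT]
          field_simp
        · simp [hb]
      have h2 : ∀ z : V, c y z * ∑ u ∈ nB (some (Sum.inr (y, z)) : Ev V q) B,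
            Q α c a k (nB (some (Sum.inr (y, z)) : Ev V q) B) u v
              (del a u (fun x' => G (act (some (Sum.inr (y, z))) x'))) x =
          c y z * (∑ u ∈ B, rho α c a (some (Sum.inr (y, z))) B u *
          (match nU (some (Sum.inr (y, z)) : Ev V q) u with
            | none => 0
            | some u' => Q α c a k (nB (some (Sum.inr (y, z)) : Ev V q) B) u' v
              (fun x' => del a u G (act (some (Sum.inr (y, z))) x')) x)) +
          (if z ∈ B.erase y then c y z * T z else 0) := by
        intro z
        by_cases hzy : z = y
        · subst hzy
          simp [hc]
        set B' : Finset V := insert z (B.erase y) with hB'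
        have eB : nB (some (Sum.inr (y, z)) : Ev V q) B = B' := by simp [nB, hy, hB']
        rw [eB]
        have hyB' : y ∉ B' := by simp [hB', Ne.symm hzy]
        -- left side
        have l1 : ∑ u ∈ B', Q α c a k B' u v
              (del a u (fun x' => G (act (some (Sum.inr (y, z))) x'))) x =
            ∑ u ∈ (B.erase y).erase z, Q α c a k B' u v
              (fun x' => del a u G (act (some (Sum.inr (y, z))) x')) x +
            (Q α c a k B' z v (fun x' => del a z G (act (some (Sum.inl (y, a))) x')) x +
             Q α c a k B' z v (fun x' => del a y G (act (some (Sum.inr (y, z))) x')) x) := by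
          have hzB' : z ∈ B' := by simp [hB']
          rw [← Finset.sum_erase_add B' _ hzB']
          have : B'.erase z = (B.erase y).erase z := by
            rw [hB', Finset.erase_insert_eq_erase]
          rw [this]
          congr 1
          · refine Finset.sum_congr rfl fun u hu => ?_
            have h3 := Finset.mem_erase.mp hu
            have h4 := Finset.mem_erase.mp h3.2
            rw [del_act_copy a y z u h4.1 h3.1]
          · rw [del_act_copy_z a y z (Ne.symm hzy)]
            exact Q_add α c a k B' z v _ _ x
        -- right side
        have r1 : ∑ u ∈ B, rho α c a (some (Sum.inr (y, z))) B u *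
          (match nU (some (Sum.inr (y, z)) : Ev V q) u with
            | none => 0
            | some u' => Q α c a k B' u' v
              (fun x' => del a u G (act (some (Sum.inr (y, z))) x')) x) =
            ∑ u ∈ (B.erase y).erase z, Q α c a k B' u v
              (fun x' => del a u G (act (some (Sum.inr (y, z))) x')) x +
             Q α c a k B' z v (fun x' => del a y G (act (some (Sum.inr (y, z))) x')) x := by
          rw [← Finset.sum_erase_add B _ hy]
          congr 1
          · have : ∀ u ∈ B.erase y, rho α c a (some (Sum.inr (y, z))) B u *
              (match nU (some (Sum.inr (y, z)) : Ev V q) u with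
                | none => 0
                | some u' => Q α c a k B' u' v
                  (fun x' => del a u G (act (some (Sum.inr (y, z))) x')) x) =
                if z = u then 0 else Q α c a k B' u v
                  (fun x' => del a u G (act (some (Sum.inr (y, z))) x')) x := by
              intro u hu
              have hne : u ≠ y := (Finset.mem_erase.mp hu).1
              by_cases hzu : z = u
              · simp [rho, hzu, hy, hne.symm]
              · simp [rho, hzu, nU, hne]
            rw [Finset.sum_congr rfl this]
            by_cases hzB : z ∈ B.erase y
            · rw [← Finset.sum_erase_add (B.erase y) _ hzB]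
              simp only [if_true, add_zero]
              refine Finset.sum_congr rfl fun u hu => ?_
              have : z ≠ u := (Finset.mem_erase.mp hu).1.symm
              simp [this]
            · rw [Finset.erase_eq_of_notMem hzB]
              refine Finset.sum_congr rfl fun u hu => ?_
              have : z ≠ u := by rintro rfl; exact hzB hu
              simp [this]
          · have e1 : nU (some (Sum.inr (y, z)) : Ev V q) y = some z := by simp [nU]
            simp only [e1]
            simp [rho]
        rw [l1, r1]
        have m1 : Q α c a k B' z v (fun x' => del a z G (act (some (Sum.inl (y, a))) x')) x =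
            if z ∈ B.erase y then T z else 0 := by
          by_cases hzB : z ∈ B.erase y
          · have : B' = B.erase y := by rw [hB', Finset.insert_eq_of_mem hzB]
            rw [if_pos hzB, this]
          · rw [if_neg hzB]
            have hzB2 : z ∉ B := by
              intro h; exact hzB (Finset.mem_erase.mpr ⟨hzy, h⟩)
            rw [del_zero_of_dep hG a hzB2]
            exact Q_zero α c a k B' z v x
        rw [m1]
        split_ifs
        · ring
        · ring
      rw [Finset.sum_congr rfl (fun b _ => h1 b), Finset.sum_congr rfl (fun z _ => h2 z),
        Finset.sum_add_distrib, Finset.sum_add_distrib]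
      have h3 : ∑ z, (if z ∈ B.erase y then c y z * T z else 0) =
          ∑ u ∈ B.erase y, c y u * T u := by
        rw [← Finset.sum_filter]
        congr 1
        ext z
        simp
      rw [h3]
      simp only [Finset.sum_ite_eq', Finset.mem_univ, if_true]
      ring
    · -- dead vertex
      congr 1
      · refine Finset.sum_congr rfl fun b _ => ?_
        congr 1
        have eB : nB (some (Sum.inl (y, b)) : Ev V q) B = B := by
          simp [nB, Finset.erase_eq_of_notMem hy]
        rw [eB]
        refine Finset.sum_congr rfl fun u hu => ?_
        have hne : u ≠ y := by rintro rfl; exact hy hu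
        rw [del_act_noise a b y u hne]
        simp [rho, nU, hne, hy]
      · refine Finset.sum_congr rfl fun z _ => ?_
        congr 1
        have eB : nB (some (Sum.inr (y, z)) : Ev V q) B = B := by
          simp [nB, hy]
        rw [eB]
        refine Finset.sum_congr rfl fun u hu => ?_
        have hne : u ≠ y := by rintro rfl; exact hy hu
        have e1 : (fun x' : V → Fin q => G (act (some (Sum.inr (y, z))) x')) = G := by
          funext x'
          simp only [act]
          exact dep_copy hG hy _ _
        have e2 : (fun x' : V → Fin q => del a u G (act (some (Sum.inr (y, z))) x')) =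
            del a u G := by
          funext x'
          simp only [act, del]
          rw [Function.update_comm hne.symm, dep_copy hG hy, dep_copy hG hy]
        rw [e1, e2]
        simp [rho, nU, hne, hy]

end Pool.Agent.helper69.NV
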