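import Pool.Agent.helper69.NV.Comm

/-!
Contraction of variances along the discrete dynamics, from any starting configuration.
-/

namespace Pool.Agent.helper69.NV

open Finset

variable {V : Type} [Fintype V] [DecidableEq V] {q : ℕ}
variable {α : ℝ} {c : V → V → ℝ} {θ h K D : ℝ} {m : V → ℝ}

theorem sum_prob : ∑ e : Ev V q, prob α c e = 1 := by
  rw [sum_ev]
  simp only [prob, Finset.sum_const, Finset.card_univ, Fintype.card_fin, nsmul_eq_mul]
  rw [← nsmul_eq_mul, ← Finset.card_univ, ← Finset.sum_const, ← Finset.sum_add_distrib]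
  unfold p0 hh
  ring

theorem It_succ' (k : ℕ) (F : (V → Fin q) → ℝ) (x : V → Fin q) :
    It α c (k+1) F x = It α c k (It α c 1 F) x := by
  have e1 : It α c 1 F = fun x' => ∑ e : Ev V q, prob α c e * F (act e x') := by
    funext x'; simp [It]
  rw [e1, It_sum]
  simp only [It]
  exact Finset.sum_congr rfl fun e _ => (It_smul α c k _ _ x).symm

theorem It_comp (j : ℕ) (k : ℕ) : ∀ (F : (V → Fin q) → ℝ) (x : V → Fin q),
    It α c j (It α c k F) x = It α c (j + k) F x := by
  induction k with
  | zero =>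
    intro F x
    have : It α c 0 F = F := by funext x; simp [It]
    rw [this, add_zero]
  | succ k ih =>
    intro F x
    have : It α c (k+1) F = It α c k (It α c 1 F) := by funext x; exact It_succ' k F x
    rw [this, ih, ← add_assoc, It_succ']

theorem It_mono (H : Good q α c θ h K D m) (k : ℕ) {F G : (V → Fin q) → ℝ}
    (hFG : ∀ x, F x ≤ G x) (x : V → Fin q) : It α c k F x ≤ It α c k G x := by
  have h1 := It_nonneg H.α_pos.le H.c_nonneg H.p0_nonneg k (fun x => G x + (-1) * F x)
    (fun x => by linarith [hFG x]) x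
  rw [It_add α c k G (fun x => (-1) * F x) x, It_smul] at h1
  linarith

theorem It_const (k : ℕ) (r : ℝ) (x : V → Fin q) : It α c k (fun _ => r) x = r := by
  induction k with
  | zero => simp [It]
  | succ k ih =>
    simp only [It]
    rw [ih, ← Finset.sum_mul, sum_prob, one_mul]

/-- variance of `g` under the law of the dynamics after `k` steps from `x` -/
noncomputable def VV (α : ℝ) (c : V → V → ℝ) (k : ℕ) (g : (V → Fin q) → ℝ)
    (x : V → Fin q) : ℝ :=
  It α c k (fun x' => (g x') ^ 2) x - (It α c k g x) ^ 2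

theorem V1_eq (g : (V → Fin q) → ℝ) (x : V → Fin q) :
    VV α c 1 g x = ∑ e : Ev V q, prob α c e * (g (act e x) - g x) ^ 2 -
      (∑ e : Ev V q, prob α c e * (g (act e x) - g x)) ^ 2 := by
  have e1 : ∑ e : Ev V q, prob α c e * (g (act e x) - g x) ^ 2 =
      ∑ e : Ev V q, prob α c e * (g (act e x)) ^ 2 -
        2 * g x * ∑ e : Ev V q, prob α c e * g (act e x) + (g x) ^ 2 := by
    have : (g x) ^ 2 = ∑ e : Ev V q, prob α c e * (g x) ^ 2 := by
      rw [← Finset.sum_mul, sum_prob, one_mul]
    rw [this, Finset.mul_sum, ← Finset.sum_sub_distrib, ← Finset.sum_add_distrib]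
    exact Finset.sum_congr rfl fun e _ => by ring
  have e2 : ∑ e : Ev V q, prob α c e * (g (act e x) - g x) =
      ∑ e : Ev V q, prob α c e * g (act e x) - g x := by
    have : g x = ∑ e : Ev V q, prob α c e * g x := by
      rw [← Finset.sum_mul, sum_prob, one_mul]
    conv_rhs => rw [this]
    rw [← Finset.sum_sub_distrib]
    exact Finset.sum_congr rfl fun e _ => by ring
  rw [e1, e2]
  unfold VV
  simp only [It]
  ring

theorem V1_le (H : Good q α c θ h K D m) (hq : 1 ≤ q) (g : (V → Fin q) → ℝ)
    (x : V → Fin q) : VV α c 1 g x ≤ h * GG g x := by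
  rw [V1_eq]
  have h1 : ∑ e : Ev V q, prob α c e * (g (act e x) - g x) ^ 2 ≤ h * GG g x := by
    rw [sum_ev, ← Finset.sum_add_distrib]
    have e0 : GG g x = ∑ y, ∑ a : Fin q, (del a y g x) ^ 2 := by
      unfold GG; rw [Finset.sum_comm]
    rw [e0, Finset.mul_sum]
    simp only [act, sub_self, ne_eq, OfNat.ofNat_ne_zero, not_false_eq_true, zero_pow, mul_zero,
      zero_add, prob]
    refine Finset.sum_le_sum fun y _ => ?_
    have e1 : ∑ z, c y z * (g (Function.update x y (x z)) - g x) ^ 2 ≤
        (∑ z, c y z) * ∑ a : Fin q, (del a y g x) ^ 2 := by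
      rw [Finset.sum_mul]
      refine Finset.sum_le_sum fun z _ => mul_le_mul_of_nonneg_left ?_ (H.c_nonneg y z)
      exact Finset.single_le_sum (f := fun a => (del a y g x) ^ 2) (fun a _ => sq_nonneg _)
        (Finset.mem_univ (x z))
    have e2 : ∑ b : Fin q, α * (g (Function.update x y b) - g x) ^ 2 =
        α * ∑ a : Fin q, (del a y g x) ^ 2 := by
      rw [Finset.mul_sum]; rfl
    have e3 : 0 ≤ ∑ a : Fin q, (del a y g x) ^ 2 := Finset.sum_nonneg fun a _ => sq_nonneg _
    have e4 : α + ∑ z, c y z ≤ h := by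
      refine le_trans ?_ (H.hh_le y)
      unfold hh
      have := H.α_pos
      have : (1 : ℝ) ≤ q := by exact_mod_cast hq
      nlinarith
    rw [e2]
    have e5 := mul_le_mul_of_nonneg_right e4 e3
    linarith
  have h2 := sq_nonneg (∑ e : Ev V q, prob α c e * (g (act e x) - g x))
  linarith

theorem le_V1 (H : Good q α c θ h K D m) (g : (V → Fin q) → ℝ)
    (x : V → Fin q) : p0 q α c * α * GG g x ≤ VV α c 1 g x := by
  rw [V1_eq]
  set S := ∑ e : Ev V q, prob α c e * (g (act e x) - g x) ^ 2 with hS
  have h1 : α * GG g x ≤ S := by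
    rw [hS, sum_ev]
    have e0 : α * GG g x = ∑ y, ∑ b : Fin q, prob α c (some (Sum.inl (y, b)) : Ev V q) *
        (g (act (some (Sum.inl (y, b))) x) - g x) ^ 2 := by
      unfold GG
      rw [Finset.sum_comm, Finset.mul_sum]
      refine Finset.sum_congr rfl fun y _ => ?_
      rw [Finset.mul_sum]
      rfl
    rw [e0]
    have e1 : 0 ≤ prob α c (none : Ev V q) * (g (act none x) - g x) ^ 2 :=
      mul_nonneg H.p0_nonneg (sq_nonneg _)
    have e2 : 0 ≤ ∑ y, ∑ z, prob α c (some (Sum.inr (y, z)) : Ev V q) *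
        (g (act (some (Sum.inr (y, z))) x) - g x) ^ 2 :=
      Finset.sum_nonneg fun y _ => Finset.sum_nonneg fun z _ =>
        mul_nonneg (H.c_nonneg y z) (sq_nonneg _)
    linarith
  have h2 : (∑ e : Ev V q, prob α c e * (g (act e x) - g x)) ^ 2 ≤ (1 - p0 q α c) * S := by
    have e1 : (∑ e : Ev V q, prob α c e * (g (act e x) - g x)) ^ 2 ≤
        (∑ e : Ev V q, (if e = none then 0 else prob α c e)) *
        (∑ e : Ev V q, prob α c e * (g (act e x) - g x) ^ 2) := by
      apply cs_sum
      · intro e _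
        split_ifs
        · exact le_rfl
        · exact prob_nonneg H.α_pos.le H.c_nonneg H.p0_nonneg e
      · intro e _
        exact mul_nonneg (prob_nonneg H.α_pos.le H.c_nonneg H.p0_nonneg e) (sq_nonneg _)
      · intro e _
        by_cases he : e = none
        · subst he
          simp [act]
        · simp only [he, if_false]
          exact le_of_eq (by ring)
    have e2 : (∑ e : Ev V q, (if e = none then 0 else prob α c e)) = 1 - p0 q α c := by
      have e3 : ∑ e : Ev V q, (if e = none then 0 else prob α c e) =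
          ∑ e : Ev V q, prob α c e - ∑ e : Ev V q, (if e = none then prob α c e else 0) := by
        rw [← Finset.sum_sub_distrib]
        refine Finset.sum_congr rfl fun e _ => ?_
        split_ifs <;> simp
      rw [e3, sum_prob, Finset.sum_ite_eq' Finset.univ none]
      simp [prob]
    rw [e2] at e1
    exact e1
  have h3 := mul_le_mul_of_nonneg_left h1 H.p0_nonneg
  linarith

theorem VV_nonneg (H : Good q α c θ h K D m) (k : ℕ) (g : (V → Fin q) → ℝ)
    (x : V → Fin q) : 0 ≤ VV α c k g x := by
  unfold VV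
  set r := It α c k g x with hr
  have h1 := It_nonneg H.α_pos.le H.c_nonneg H.p0_nonneg k
    (fun x' => ((g x') ^ 2 + (-2 * r) * g x') + r ^ 2)
    (fun x' => by nlinarith [sq_nonneg (g x' - r)]) x
  rw [It_add α c k (fun x' => (g x') ^ 2 + (-2 * r) * g x') (fun _ => r ^ 2) x,
    It_add α c k (fun x' => (g x') ^ 2) (fun x' => (-2 * r) * g x') x, It_smul, It_const,
    ← hr] at h1
  nlinarith

theorem VV_succ (k : ℕ) (g : (V → Fin q) → ℝ) (x : V → Fin q) :
    VV α c (k+1) g x = It α c k (VV α c 1 g) x + VV α c k (It α c 1 g) x := by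
  unfold VV
  rw [It_succ' k (fun x' => (g x') ^ 2) x, It_succ' k g x]
  have e1 : (fun x => It α c 1 (fun x' => (g x') ^ 2) x - (It α c 1 g x) ^ 2) =
      fun x => It α c 1 (fun x' => (g x') ^ 2) x + (-1) * (It α c 1 g x) ^ 2 := by
    funext x; ring
  rw [e1, It_add α c k (It α c 1 (fun x' => (g x') ^ 2)) (fun x => (-1) * (It α c 1 g x) ^ 2) x,
    It_smul α c k (-1) (fun x => (It α c 1 g x) ^ 2) x]
  ring

/-- variance contraction -/
theorem var_contr (H : Good q α c θ h K D m) (hq : 1 ≤ q) {S0 : ℝ} (hs : Small θ h K D S0)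
    {d : V → V → ℕ} {L T : ℝ} (hd : DistOK c θ d L T) (hT : 0 ≤ T)
    (hp : 0 < p0 q α c) (mm : ℕ) (N : ℕ) : ∀ (f : (V → Fin q) → ℝ) (x : V → Fin q),
    VV α c N (It α c mm f) x ≤
      (h * (Real.exp S0 * √D * T * (1 - θ * h / 2) ^ mm) / (p0 q α c * α)) *
        VV α c (N + mm) f x := by
  have hα := H.α_pos
  have hpa : 0 < p0 q α c * α := mul_pos hp hα
  set C := Real.exp S0 * √D * T * (1 - θ * h / 2) ^ mm with hC
  have hC0 : 0 ≤ C ∨ IsEmpty V := by
    rcases isEmpty_or_nonempty V with hV | ⟨⟨v0⟩⟩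
    · exact Or.inr hV
    · left
      have := contr_nonneg H hd v0
      positivity
  induction N with
  | zero =>
    intro f x
    have e1 : VV α c 0 (It α c mm f) x = 0 := by simp [VV, It]
    rw [e1]
    rcases hC0 with hC0 | hV
    · exact mul_nonneg (div_nonneg (mul_nonneg H.h_pos.le hC0) hpa.le) (VV_nonneg H _ _ _)
    · have e2 : ∀ y : V → Fin q, f y = f x := fun y => by
        rw [Subsingleton.elim y x]
      have e3 : f = fun _ => f x := funext e2
      have e4 : VV α c (0 + mm) f x = 0 := by
        rw [e3]; unfold VV; rw [It_const, It_const]; ring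
      rw [e4, mul_zero]
  | succ N ih =>
    intro f x
    rw [VV_succ]
    have e1 : It α c 1 (It α c mm f) = It α c mm (It α c 1 f) := by
      funext x
      rw [It_comp, It_comp, add_comm]
    rw [e1]
    have e2 := ih (It α c 1 f) x
    have e3 : It α c N (VV α c 1 (It α c mm f)) x ≤
        (h * C / (p0 q α c * α)) * It α c (N + mm) (VV α c 1 f) x := by
      rw [← It_comp, ← It_smul]
      refine It_mono H N (fun y => ?_) x
      have f1 := V1_le H hq (It α c mm f) y
      have f2 := comm H hs hd hT mm f y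
      have f3 : It α c mm (fun z => (p0 q α c * α) * GG f z) y ≤ It α c mm (VV α c 1 f) y :=
        It_mono H mm (fun z => le_V1 H f z) y
      rw [It_smul] at f3
      have f4 : h * GG (It α c mm f) y ≤ h * (C * It α c mm (GG f) y) :=
        mul_le_mul_of_nonneg_left f2 H.h_pos.le
      rcases hC0 with hC0 | hV
      · have f5 : h * (C * It α c mm (GG f) y) =
            (h * C / (p0 q α c * α)) * (p0 q α c * α * It α c mm (GG f) y) := by
          field_simp
        calc VV α c 1 (It α c mm f) y ≤ h * (C * It α c mm (GG f) y) := f1.trans f4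
          _ = (h * C / (p0 q α c * α)) * (p0 q α c * α * It α c mm (GG f) y) := f5
          _ ≤ _ := mul_le_mul_of_nonneg_left f3
              (div_nonneg (mul_nonneg H.h_pos.le hC0) hpa.le)
      · have g1 : ∀ F : (V → Fin q) → ℝ, VV α c 1 F = fun _ => 0 := by
          intro F
          funext z
          have e3 : F = fun _ => F z := funext fun y => by rw [Subsingleton.elim y z]
          rw [e3]; unfold VV; rw [It_const, It_const]; ring
        rw [g1, g1, It_const, mul_zero]
    have e4 : VV α c (N + 1 + mm) f x =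
        It α c (N + mm) (VV α c 1 f) x + VV α c (N + mm) (It α c 1 f) x := by
      rw [← VV_succ]; congr 1; ring
    rw [e4, mul_add]
    exact add_le_add e3 e2

theorem VV_le_one (H : Good q α c θ h K D m) (k : ℕ) {f : (V → Fin q) → ℝ}
    (hf0 : ∀ x, 0 ≤ f x) (hf1 : ∀ x, f x ≤ 1) (x : V → Fin q) : VV α c k f x ≤ 1 := by
  unfold VV
  have h1 : It α c k (fun x' => (f x') ^ 2) x ≤ It α c k (fun _ => 1) x :=
    It_mono H k (fun y => by nlinarith [hf0 y, hf1 y]) x
  rw [It_const] at h1
  nlinarith [sq_nonneg (It α c k f x)]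

end Pool.Agent.helper69.NV
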